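import Pool.Agent.H79.MT.Targets5

/-!
# MP_c80a4f_an, operation 5: elementary lemmas on `IC`, `Op`, `PD`
-/

set_option linter.unusedSectionVars false

open Pool.Agent.H48.MT InnerProductSpace
open scoped ComplexConjugate

namespace Pool.Agent.H79.MT5

variable {H : Type} [NormedAddCommGroup H] [InnerProductSpace ℂ H] [CompleteSpace H]

namespace IC

variable {h : ℂ → ℂ}

lemma id : IC (fun c => c) := Or.inl fun _ => rfl

lemma add (hh : IC h) (a b : ℂ) : h (a + b) = h a + h b := by
  rcases hh with h' | h' <;> simp [h']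

lemma sub (hh : IC h) (a b : ℂ) : h (a - b) = h a - h b := by
  rcases hh with h' | h' <;> simp [h']

lemma neg (hh : IC h) (a : ℂ) : h (-a) = -h a := by
  rcases hh with h' | h' <;> simp [h']

lemma mul (hh : IC h) (a b : ℂ) : h (a * b) = h a * h b := by
  rcases hh with h' | h' <;> simp [h']

lemma inv (hh : IC h) (a : ℂ) : h a⁻¹ = (h a)⁻¹ := by
  rcases hh with h' | h' <;> simp [h']

lemma zero (hh : IC h) : h 0 = 0 := by
  rcases hh with h' | h' <;> simp [h']

lemma one (hh : IC h) : h 1 = 1 := by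
  rcases hh with h' | h' <;> simp [h']

lemma ofReal (hh : IC h) (r : ℝ) : h (r : ℂ) = r := by
  rcases hh with h' | h' <;> simp [h']

lemma ofNat (hh : IC h) (n : ℕ) : h (n : ℂ) = n := by
  rcases hh with h' | h' <;> simp [h']

lemma hconj (hh : IC h) (a : ℂ) : h (conj a) = conj (h a) := by
  rcases hh with h' | h' <;> simp [h']

lemma invol (hh : IC h) (a : ℂ) : h (h a) = a := by
  rcases hh with h' | h' <;> simp [h']

lemma norm (hh : IC h) (a : ℂ) : ‖h a‖ = ‖a‖ := by
  rcases hh with h' | h' <;> simp [h']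

lemma eq_zero (hh : IC h) {a : ℂ} : h a = 0 ↔ a = 0 := by
  rw [← norm_eq_zero, hh.norm, norm_eq_zero]

lemma ne_zero (hh : IC h) {a : ℂ} (ha : a ≠ 0) : h a ≠ 0 := fun h0 => ha (hh.eq_zero.1 h0)

lemma surj (hh : IC h) (a : ℂ) : ∃ b, h b = a := ⟨h a, hh.invol a⟩

lemma inj (hh : IC h) {a b : ℂ} (hab : h a = h b) : a = b := by
  rw [← hh.invol a, hab, hh.invol]

end IC

namespace Op

omit [CompleteSpace H] in
lemma symm {x y : H} (h : Op x y) : Op y x :=
  ⟨h.2.1, h.1, by rw [← inner_conj_symm, h.2.2, map_zero]⟩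

omit [CompleteSpace H] in
lemma inner_yx {x y : H} (h : Op x y) : inner ℂ y x = 0 := h.symm.2.2

omit [CompleteSpace H] in
lemma ne_left {x y : H} (h : Op x y) : x ≠ 0 := by
  rintro rfl
  have := h.1
  rw [norm_zero] at this
  exact zero_ne_one this

omit [CompleteSpace H] in
lemma ne_right {x y : H} (h : Op x y) : y ≠ 0 := h.symm.ne_left

omit [CompleteSpace H] in
lemma inner_xx {x y : H} (h : Op x y) : inner ℂ x x = (1 : ℂ) := by
  rw [inner_self_eq_norm_sq_to_K, h.1]
  norm_num

omit [CompleteSpace H] in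
lemma inner_yy {x y : H} (h : Op x y) : inner ℂ y y = (1 : ℂ) := h.symm.inner_xx

end Op

omit [CompleteSpace H] in
lemma inner_self_one {x : H} (h : ‖x‖ = 1) : inner ℂ x x = (1 : ℂ) := by
  rw [inner_self_eq_norm_sq_to_K, h]
  norm_num

namespace PD

variable {Φ : (H →L[ℂ] H) → H →L[ℂ] H} {h : ℂ → ℂ} {δ : ℂ} {x y u v : H}

lemma xy (hp : PD Φ h δ x y u v) (hh : IC h) (a : ℂ) :
    Φ (a • ro x y) = (δ * h a) • ro u v := by
  have := hp a 0 0
  simpa [hh.zero, smul_smul] using this

lemma yx (hp : PD Φ h δ x y u v) (hh : IC h) (b : ℂ) :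
    Φ (b • ro y x) = (δ * h b) • ro v u := by
  have := hp 0 b 0
  simpa [hh.zero, smul_smul] using this

lemma dd (hp : PD Φ h δ x y u v) (hh : IC h) (c : ℂ) :
    Φ (c • (ro x x - ro y y)) = (δ * h c) • (ro u u - ro v v) := by
  have := hp 0 0 c
  simpa [hh.zero, smul_smul] using this

lemma xy1 (hp : PD Φ h δ x y u v) (hh : IC h) : Φ (ro x y) = δ • ro u v := by
  have := hp.xy hh 1
  simpa [hh.one] using this

lemma yx1 (hp : PD Φ h δ x y u v) (hh : IC h) : Φ (ro y x) = δ • ro v u := by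
  have := hp.yx hh 1
  simpa [hh.one] using this

lemma dd1 (hp : PD Φ h δ x y u v) (hh : IC h) :
    Φ (ro x x - ro y y) = δ • (ro u u - ro v v) := by
  have := hp.dd hh 1
  simpa [hh.one] using this

/-- from the three families -/
lemma of (_hh : IC h) (hadd : ∀ A B, Φ (A + B) = Φ A + Φ B)
    (h1 : ∀ a, Φ (a • ro x y) = (δ * h a) • ro u v)
    (h2 : ∀ a, Φ (a • ro y x) = (δ * h a) • ro v u)
    (h3 : ∀ a, Φ (a • (ro x x - ro y y)) = (δ * h a) • (ro u u - ro v v)) :
    PD Φ h δ x y u v := by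
  intro a b c
  rw [hadd, hadd, h1, h2, h3, smul_add, smul_add, smul_smul, smul_smul, smul_smul]

/-- a common phase does not matter -/
lemma phase (hp : PD Φ h δ x y u v) {c : ℂ} (hc : ‖c‖ = 1) : PD Φ h δ x y (c • u) (c • v) := by
  have hcc : c * conj c = 1 := by
    rw [Complex.mul_conj, Complex.normSq_eq_norm_sq, hc]
    norm_num
  intro a b d
  rw [hp a b d]
  simp only [ro_smul_left, ro_smul_right, smul_smul]
  rw [mul_comm (conj c) c, hcc, one_smul, one_smul]
  simp [smul_smul]

/-- exchange of the vectors of the pair -/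
lemma swap (hp : PD Φ h δ x y u v) (hh : IC h) : PD Φ h δ y x v u := by
  intro a b c
  have := hp b a (-c)
  have e1 : b • ro x y + a • ro y x + -c • (ro x x - ro y y)
      = a • ro y x + b • ro x y + c • (ro y y - ro x x) := by module
  rw [e1] at this
  rw [this, hh.neg]
  module

end PD

end Pool.Agent.H79.MT5
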