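import Pool.Agent.H79.MT.Defs

/-!
# Basic facts about the polar decomposition and powers of the modulus
-/

open scoped ComplexOrder InnerProductSpace ComplexConjugate

namespace Pool.Agent.H79.MT

universe u

variable {H : Type u} [NormedAddCommGroup H] [InnerProductSpace ℂ H] [CompleteSpace H]


theorem inner_star (A : H →L[ℂ] H) (x y : H) : ⟪star A x, y⟫_ℂ = ⟪x, A y⟫_ℂ := by
  rw [ContinuousLinearMap.star_eq_adjoint, ContinuousLinearMap.adjoint_inner_left]

theorem inner_star' (A : H →L[ℂ] H) (x y : H) : ⟪x, star A y⟫_ℂ = ⟪A x, y⟫_ℂ := by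
  rw [ContinuousLinearMap.star_eq_adjoint, ContinuousLinearMap.adjoint_inner_right]

theorem abs_star_eq (T : H →L[ℂ] H) : star (CFC.abs T) = CFC.abs T :=
  (IsSelfAdjoint.of_nonneg (CFC.abs_nonneg T)).star_eq

theorem norm_abs_apply (T : H →L[ℂ] H) (x : H) : ‖CFC.abs T x‖ = ‖T x‖ := by
  have h1 : ⟪CFC.abs T x, CFC.abs T x⟫_ℂ = ⟪T x, T x⟫_ℂ := by
    rw [← inner_star, abs_star_eq, ← inner_star]
    have : (CFC.abs T) (CFC.abs T x) = (star T * T) x := by
      rw [← CFC.abs_mul_abs]; rfl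
    rw [this]; rfl
  have h2 : ‖CFC.abs T x‖ ^ 2 = ‖T x‖ ^ 2 := by
    have := congrArg Complex.re h1
    rwa [← inner_self_eq_norm_sq (𝕜 := ℂ), ← inner_self_eq_norm_sq (𝕜 := ℂ)]
  exact (sq_eq_sq₀ (norm_nonneg _) (norm_nonneg _)).1 h2

theorem abs_apply_eq_zero (T : H →L[ℂ] H) (x : H) : CFC.abs T x = 0 ↔ T x = 0 := by
  rw [← norm_eq_zero, norm_abs_apply, norm_eq_zero]

/-- Existence of the polar decomposition. -/
theorem exists_isPhase (T : H →L[ℂ] H) : ∃ V : H →L[ℂ] H, IsPhase T V := by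
  classical
  set P := CFC.abs T with hP
  set K : Submodule ℂ H := (LinearMap.range (P : H →ₗ[ℂ] H)).topologicalClosure with hK
  have hKc : IsClosed (K : Set H) := Submodule.isClosed_topologicalClosure _
  have : CompleteSpace K := hKc.completeSpace_coe
  let e : H →ₗ[ℂ] K := LinearMap.codRestrict K (P : H →ₗ[ℂ] H)
    (fun x => Submodule.le_topologicalClosure _ ⟨x, rfl⟩)
  have he : ∀ x, ((e x : K) : H) = P x := fun x => rfl
  have hdense : DenseRange e := by
    rw [DenseRange, dense_iff_closure_eq]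
    ext k
    simp only [Set.mem_univ, iff_true]
    have hk : (k : H) ∈ closure (LinearMap.range (P : H →ₗ[ℂ] H) : Set H) := k.2
    rw [closure_subtype]
    refine closure_mono ?_ hk
    rintro _ ⟨x, rfl⟩
    exact ⟨e x, ⟨x, rfl⟩, rfl⟩
  have hnorm : ∀ x, ‖(T : H →ₗ[ℂ] H) x‖ ≤ 1 * ‖e x‖ := by
    intro x
    rw [one_mul]
    change ‖T x‖ ≤ ‖P x‖
    rw [hP, norm_abs_apply]
  let V1 : K →L[ℂ] H := LinearMap.extendOfNorm (T : H →ₗ[ℂ] H) e
  have hV1 : ∀ x, V1 (e x) = T x := fun x => LinearMap.extendOfNorm_eq hdense ⟨1, hnorm⟩ x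
  have hiso : ∀ k : K, ‖V1 k‖ = ‖k‖ := by
    intro k
    refine hdense.induction_on k
      (isClosed_eq V1.continuous.norm continuous_norm) ?_
    intro x
    rw [hV1]
    change ‖T x‖ = ‖P x‖
    rw [hP, norm_abs_apply]
  let V : H →L[ℂ] H := V1 ∘L K.orthogonalProjectionOnto
  have hVP : ∀ x, V (P x) = T x := by
    intro x
    have : K.orthogonalProjectionOnto (P x) = e x := by
      have h := K.orthogonalProjectionOnto_mem_subspace_eq_self (e x)
      exact h
    change V1 (K.orthogonalProjectionOnto (P x)) = T x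
    rw [this, hV1]
  have hinner : ∀ a b : K, ⟪V1 a, V1 b⟫_ℂ = ⟪a, b⟫_ℂ := by
    intro a b
    let L : K →ₗᵢ[ℂ] H := ⟨(V1 : K →ₗ[ℂ] H), hiso⟩
    exact L.inner_map_map a b
  have hVV : ∀ x, star V (V x) = (K.orthogonalProjectionOnto x : H) := by
    intro x
    refine ext_inner_left ℂ fun y => ?_
    rw [inner_star']
    change ⟪V1 (K.orthogonalProjectionOnto y), V1 (K.orthogonalProjectionOnto x)⟫_ℂ = _
    rw [hinner]
    exact K.inner_orthogonalProjectionOnto_eq_of_mem_right (K.orthogonalProjectionOnto x) y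
  refine ⟨V, ?_, ?_, ?_⟩
  · ext x
    change V (star V (V x)) = V x
    rw [hVV]
    change V1 (K.orthogonalProjectionOnto (K.orthogonalProjectionOnto x : H)) =
      V1 (K.orthogonalProjectionOnto x)
    rw [K.orthogonalProjectionOnto_mem_subspace_eq_self]
  · intro x
    have h1 : V x = 0 ↔ K.orthogonalProjectionOnto x = 0 := by
      change V1 (K.orthogonalProjectionOnto x) = 0 ↔ _
      rw [← norm_eq_zero, hiso, norm_eq_zero]
    rw [h1, ← abs_apply_eq_zero, Submodule.orthogonalProjectionOnto_eq_zero_iff]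
    constructor
    · intro hx
      have h2 : ⟪P (P x), x⟫_ℂ = 0 :=
        hx _ (Submodule.le_topologicalClosure _ ⟨P x, rfl⟩)
      have h3 : ⟪P x, P x⟫_ℂ = 0 := by
        have : star P = P := by rw [hP, abs_star_eq]
        rw [← inner_star, this]; exact h2
      exact inner_self_eq_zero.1 h3
    · intro hx y hy
      have hy' : y ∈ closure (LinearMap.range (P : H →ₗ[ℂ] H) : Set H) := hy
      have hcl : IsClosed {y : H | ⟪y, x⟫_ℂ = 0} := isClosed_eq (by fun_prop) continuous_const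
      refine (closure_minimal ?_ hcl) hy'
      rintro _ ⟨z, rfl⟩
      change ⟪P z, x⟫_ℂ = 0
      have : star P = P := by rw [hP, abs_star_eq]
      rw [← this, inner_star, hx, inner_zero_right]
  · ext x
    exact hVP x

theorem abs_mul_apply (T : H →L[ℂ] H) (x y : H) : ⟪CFC.abs T x, y⟫_ℂ = ⟪x, CFC.abs T y⟫_ℂ := by
  conv_lhs => rw [← abs_star_eq]
  exact inner_star _ _ _

/-- An operator which vanishes on the range of `|T|` and on the kernel of `T` is zero. -/
theorem eq_zero_of_abs {T D : H →L[ℂ] H} (h1 : D * CFC.abs T = 0)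
    (h2 : ∀ x, T x = 0 → D x = 0) : D = 0 := by
  have h3 : CFC.abs T * star D = 0 := by
    have := congrArg star h1
    rwa [star_mul, abs_star_eq, star_zero] at this
  have h4 : D * star D = 0 := by
    ext y
    change D (star D y) = 0
    refine h2 _ ((abs_apply_eq_zero T _).1 ?_)
    change (CFC.abs T * star D) y = 0
    rw [h3]; rfl
  exact (CStarRing.mul_star_self_eq_zero_iff D).1 h4

theorem IsPhase.unique {T V W : H →L[ℂ] H} (hV : IsPhase T V) (hW : IsPhase T W) : V = W := by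
  have h : V - W = 0 := by
    refine eq_zero_of_abs (T := T) ?_ ?_
    · rw [sub_mul, hV.factor, hW.factor, sub_self]
    · intro x hx
      change V x - W x = 0
      rw [(hV.ker x).2 hx, (hW.ker x).2 hx, sub_self]
  exact sub_eq_zero.1 h

theorem phase_spec (T : H →L[ℂ] H) : IsPhase T (phase T) :=
  Classical.epsilon_spec (exists_isPhase T)

theorem phase_eq {T V : H →L[ℂ] H} (h : IsPhase T V) : phase T = V :=
  (phase_spec T).unique h

theorem phase_mul_abs (T : H →L[ℂ] H) : phase T * CFC.abs T = T := (phase_spec T).factor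

theorem phase_apply_abs (T : H →L[ℂ] H) (x : H) : phase T (CFC.abs T x) = T x := by
  change (phase T * CFC.abs T) x = T x
  rw [phase_mul_abs]

theorem phase_apply_eq_zero (T : H →L[ℂ] H) (x : H) : phase T x = 0 ↔ T x = 0 :=
  (phase_spec T).ker x

theorem phase_star_phase (T : H →L[ℂ] H) : phase T * star (phase T) * phase T = phase T :=
  (phase_spec T).partial_isometry

theorem star_phase_phase_star (T : H →L[ℂ] H) :
    star (phase T) * phase T * star (phase T) = star (phase T) := by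
  have := congrArg star (phase_star_phase T)
  simpa [mul_assoc] using this

/-- The support projection `V* V` of `T`. -/
noncomputable def supp (T : H →L[ℂ] H) : H →L[ℂ] H := star (phase T) * phase T

theorem supp_star (T : H →L[ℂ] H) : star (supp T) = supp T := by
  simp [supp]

theorem supp_mul_supp (T : H →L[ℂ] H) : supp T * supp T = supp T := by
  unfold supp
  rw [← mul_assoc, star_phase_phase_star]

theorem isStarProjection_supp (T : H →L[ℂ] H) : IsStarProjection (supp T) :=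
  ⟨supp_mul_supp T, supp_star T⟩

theorem phase_mul_supp (T : H →L[ℂ] H) : phase T * supp T = phase T := by
  unfold supp
  rw [← mul_assoc, phase_star_phase]

theorem supp_apply_eq_zero (T : H →L[ℂ] H) (x : H) : supp T x = 0 ↔ T x = 0 := by
  rw [← phase_apply_eq_zero T x]
  constructor
  · intro h
    have : phase T x = (phase T * supp T) x := by rw [phase_mul_supp]
    rw [this]
    change phase T (supp T x) = 0
    rw [h, map_zero]
  · intro h
    change star (phase T) (phase T x) = 0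
    rw [h, map_zero]

theorem abs_mul_supp (T : H →L[ℂ] H) : CFC.abs T * supp T = CFC.abs T := by
  have h : CFC.abs T * (1 - supp T) = 0 := by
    ext x
    change CFC.abs T (x - supp T x) = 0
    rw [abs_apply_eq_zero, ← supp_apply_eq_zero]
    rw [map_sub]
    have : supp T (supp T x) = supp T x := by
      change (supp T * supp T) x = supp T x
      rw [supp_mul_supp]
    rw [this, sub_self]
  rw [mul_sub, mul_one, sub_eq_zero] at h
  exact h.symm

theorem supp_mul_abs (T : H →L[ℂ] H) : supp T * CFC.abs T = CFC.abs T := by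
  have := congrArg star (abs_mul_supp T)
  rwa [star_mul, abs_star_eq, supp_star] at this

theorem star_phase_mul (T : H →L[ℂ] H) : star (phase T) * T = CFC.abs T := by
  have h : star (phase T) * T = star (phase T) * (phase T * CFC.abs T) := by rw [phase_mul_abs]
  rw [h, ← mul_assoc]
  exact supp_mul_abs T

theorem mul_supp (T : H →L[ℂ] H) : T * supp T = T := by
  have h : T * supp T = phase T * CFC.abs T * supp T := by rw [phase_mul_abs]
  rw [h, mul_assoc, abs_mul_supp, phase_mul_abs]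

theorem commute_abs {T B : H →L[ℂ] H} (h1 : Commute B T) (h2 : Commute B (star T)) :
    Commute B (CFC.abs T) := by
  have h : Commute (star T * T) B := (h2.mul_right h1).symm
  exact (Commute.cfcₙ_nnreal h _).symm

/-- `B` commuting with `T` and `T*` commutes with the phase. -/
theorem commute_phase {T B : H →L[ℂ] H} (h1 : Commute B T) (h2 : Commute B (star T)) :
    Commute B (phase T) := by
  have h3 : Commute B (CFC.abs T) := commute_abs h1 h2
  have h : B * phase T - phase T * B = 0 := by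
    refine eq_zero_of_abs (T := T) ?_ ?_
    · rw [sub_mul, mul_assoc, phase_mul_abs, mul_assoc, h3.eq, ← mul_assoc, phase_mul_abs,
        h1.eq, sub_self]
    · intro x hx
      change B (phase T x) - phase T (B x) = 0
      have h4 : T (B x) = 0 := by
        change (T * B) x = 0
        rw [← h1.eq]
        change B (T x) = 0
        rw [hx, map_zero]
      rw [(phase_apply_eq_zero T x).2 hx, (phase_apply_eq_zero T (B x)).2 h4, map_zero, sub_self]
  exact sub_eq_zero.1 h

section Powers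

variable {P : H →L[ℂ] H}

theorem rpow_add_nonneg (_hP : 0 ≤ P) {a b : ℝ} (ha : 0 ≤ a) (hb : 0 ≤ b) :
    P ^ a * P ^ b = P ^ (a + b) := by
  rw [CFC.rpow_def, CFC.rpow_def, CFC.rpow_def, ← cfc_mul (R := NNReal) _ _ P
    (NNReal.continuous_rpow_const ha).continuousOn (NNReal.continuous_rpow_const hb).continuousOn]
  refine cfc_congr fun x _ => ?_
  exact (NNReal.rpow_add_of_nonneg x ha hb).symm

theorem rpow_star (P : H →L[ℂ] H) (a : ℝ) : star (P ^ a) = P ^ a :=
  (IsSelfAdjoint.of_nonneg CFC.rpow_nonneg).star_eq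

theorem commute_rpow {B : H →L[ℂ] H} (h : Commute P B) (a : ℝ) : Commute (P ^ a) B := by
  rw [CFC.rpow_def]
  exact h.cfc_nnreal _

theorem rpow_half_apply (hP : 0 ≤ P) {a : ℝ} (ha : 0 ≤ a) (x : H) :
    (P ^ a) x = 0 ↔ (P ^ (a + a)) x = 0 := by
  rw [← rpow_add_nonneg hP ha ha]
  constructor
  · intro h
    change (P ^ a) ((P ^ a) x) = 0
    rw [h, map_zero]
  · intro h
    have h1 : ⟪(P ^ a) x, (P ^ a) x⟫_ℂ = 0 := by
      rw [← inner_star', rpow_star]
      change ⟪x, (P ^ a * P ^ a) x⟫_ℂ = 0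
      rw [h, inner_zero_right]
    exact inner_self_eq_zero.1 h1

theorem rpow_apply_mono (hP : 0 ≤ P) {a b : ℝ} (ha : 0 ≤ a) (hab : a ≤ b) {x : H}
    (h : (P ^ a) x = 0) : (P ^ b) x = 0 := by
  have : P ^ b = P ^ (b - a) * P ^ a := by
    rw [rpow_add_nonneg hP (by linarith) ha]; congr 1; ring
  rw [this]
  change (P ^ (b - a)) ((P ^ a) x) = 0
  rw [h, map_zero]

theorem rpow_apply_eq_zero_iff (hP : 0 ≤ P) {a b : ℝ} (ha : 0 < a) (hb : 0 < b) (x : H) :
    (P ^ a) x = 0 ↔ (P ^ b) x = 0 := by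
  have key : ∀ a b : ℝ, 0 < a → 0 < b → (P ^ b) x = 0 → (P ^ a) x = 0 := by
    intro a b ha hb h
    obtain ⟨n, hn⟩ : ∃ n : ℕ, b ≤ 2 ^ n * a := by
      obtain ⟨n, hn⟩ := pow_unbounded_of_one_lt (b / a) (by norm_num : (1 : ℝ) < 2)
      exact ⟨n, by rw [div_lt_iff₀ ha] at hn; exact hn.le⟩
    have h1 : (P ^ (2 ^ n * a)) x = 0 := rpow_apply_mono hP hb.le hn h
    clear hn
    induction n with
    | zero => simpa using h1
    | succ n ih =>
      refine ih ?_
      rw [rpow_half_apply hP (by positivity)]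
      convert h1 using 3
      ring
  exact ⟨key b a hb ha, key a b ha hb⟩

theorem rpow_apply_eq_zero (hP : 0 ≤ P) {a : ℝ} (ha : 0 < a) (x : H) :
    (P ^ a) x = 0 ↔ P x = 0 := by
  rw [rpow_apply_eq_zero_iff hP ha one_pos, CFC.rpow_one P hP]

end Powers

theorem abs_rpow_apply_eq_zero (T : H →L[ℂ] H) {a : ℝ} (ha : 0 < a) (x : H) :
    ((CFC.abs T) ^ a) x = 0 ↔ T x = 0 := by
  rw [rpow_apply_eq_zero (CFC.abs_nonneg T) ha, abs_apply_eq_zero]

theorem abs_rpow_mul_supp (T : H →L[ℂ] H) {a : ℝ} (ha : 0 < a) :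
    (CFC.abs T) ^ a * supp T = (CFC.abs T) ^ a := by
  have h : (CFC.abs T) ^ a * (1 - supp T) = 0 := by
    ext x
    change ((CFC.abs T) ^ a) (x - supp T x) = 0
    rw [abs_rpow_apply_eq_zero T ha, ← supp_apply_eq_zero, map_sub]
    have : supp T (supp T x) = supp T x := by
      change (supp T * supp T) x = supp T x
      rw [supp_mul_supp]
    rw [this, sub_self]
  rw [mul_sub, mul_one, sub_eq_zero] at h
  exact h.symm

theorem supp_mul_abs_rpow (T : H →L[ℂ] H) {a : ℝ} (ha : 0 < a) :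
    supp T * (CFC.abs T) ^ a = (CFC.abs T) ^ a := by
  have := congrArg star (abs_rpow_mul_supp T ha)
  rwa [star_mul, rpow_star, supp_star] at this

theorem aluthge_zero (T : H →L[ℂ] H) : aluthge 0 T = T := by
  unfold aluthge
  rw [CFC.rpow_zero _ (CFC.abs_nonneg T), sub_zero, CFC.rpow_one _ (CFC.abs_nonneg T), one_mul,
    phase_mul_abs]

theorem aluthge_one (T : H →L[ℂ] H) : aluthge 1 T = CFC.abs T * phase T := by
  unfold aluthge
  rw [sub_self, CFC.rpow_zero _ (CFC.abs_nonneg T), CFC.rpow_one _ (CFC.abs_nonneg T), mul_one]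

theorem meanL_zero : (meanL 0 : (H →L[ℂ] H) → (H →L[ℂ] H)) = meanT := by
  funext T
  unfold meanL meanT
  rw [aluthge_zero, sub_zero, aluthge_one]

theorem meanL_half : (meanL (1 / 2) : (H →L[ℂ] H) → (H →L[ℂ] H)) = aluthge (1 / 2) := by
  funext T
  unfold meanL
  have : (1 : ℝ) - 1 / 2 = 1 / 2 := by norm_num
  rw [this, ← two_smul ℂ (aluthge (1 / 2) T), smul_smul]
  norm_num

/-- Transforms of kind A: all but the mean transform. -/
def KA (Λ : (H →L[ℂ] H) → (H →L[ℂ] H)) : Prop :=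
  Λ = meanAluthge ∨ ∃ l : ℝ, 0 < l ∧ l ≤ 1 / 2 ∧ Λ = meanL l

/-- The mean transform (kind B). -/
def KB (Λ : (H →L[ℂ] H) → (H →L[ℂ] H)) : Prop := Λ = meanT

theorem isTr_iff (Λ : (H →L[ℂ] H) → (H →L[ℂ] H)) : IsTr Λ ↔ KA Λ ∨ KB Λ := by
  constructor
  · rintro (h | ⟨l, h0, h1, h⟩)
    · exact Or.inl (Or.inl h)
    · rcases h0.lt_or_eq with h2 | h2
      · exact Or.inl (Or.inr ⟨l, h2, h1, h⟩)
      · refine Or.inr ?_
        rw [KB, h, ← h2, meanL_zero]
  · rintro ((h | ⟨l, h0, h1, h⟩) | h)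
    · exact Or.inl h
    · exact Or.inr ⟨l, h0.le, h1, h⟩
    · exact Or.inr ⟨0, le_refl _, by norm_num, by rw [meanL_zero]; exact h⟩

theorem KA.isTr {Λ : (H →L[ℂ] H) → (H →L[ℂ] H)} (h : KA Λ) : IsTr Λ := (isTr_iff Λ).2 (Or.inl h)

theorem KB.isTr {Λ : (H →L[ℂ] H) → (H →L[ℂ] H)} (h : KB Λ) : IsTr Λ := (isTr_iff Λ).2 (Or.inr h)

/-- The inverse of a solution is a solution. -/
theorem Sol.symm {Λ : (H →L[ℂ] H) → (H →L[ℂ] H)}
    {op : (H →L[ℂ] H) → (H →L[ℂ] H) → (H →L[ℂ] H)} {Φ : (H →L[ℂ] H) → (H →L[ℂ] H)}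
    (h : Sol Λ op Φ) {Ψ : (H →L[ℂ] H) → (H →L[ℂ] H)} (h1 : ∀ T, Φ (Ψ T) = T)
    (h2 : ∀ T, Ψ (Φ T) = T) : Sol Λ op Ψ := by
  refine ⟨⟨fun a b hab => ?_, fun a => ⟨Φ a, h2 a⟩⟩, fun A B => ?_⟩
  · rw [← h1 a, ← h1 b, hab]
  · have := h.2 (Ψ A) (Ψ B)
    rw [h1, h1] at this
    rw [this, h2]

theorem Sol.exists_symm {Λ : (H →L[ℂ] H) → (H →L[ℂ] H)}
    {op : (H →L[ℂ] H) → (H →L[ℂ] H) → (H →L[ℂ] H)} {Φ : (H →L[ℂ] H) → (H →L[ℂ] H)}
    (h : Sol Λ op Φ) : ∃ Ψ : (H →L[ℂ] H) → (H →L[ℂ] H), (∀ T, Φ (Ψ T) = T) ∧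
      (∀ T, Ψ (Φ T) = T) ∧ Sol Λ op Ψ := by
  let e := Equiv.ofBijective Φ h.1
  exact ⟨e.symm, e.apply_symm_apply, e.symm_apply_apply,
    h.symm e.apply_symm_apply e.symm_apply_apply⟩

end Pool.Agent.H79.MT
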