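import Pool.Agent.H48.MT.Basic

/-!
# MP_c80a4f_an, operation 5 (the sum): definitions and elementary lemmas
-/

open Pool.Agent.H48.MT InnerProductSpace
open scoped ComplexConjugate

namespace Pool.Agent.H79.MT5

variable {H : Type} [NormedAddCommGroup H] [InnerProductSpace ℂ H] [CompleteSpace H]

/-- additive bijections commuting with the transform -/
structure AS (L Φ : (H →L[ℂ] H) → H →L[ℂ] H) : Prop where
  bij : Function.Bijective Φ
  add : ∀ A B, Φ (A + B) = Φ A + Φ B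
  com : ∀ A, L (Φ A) = Φ (L A)

/-- the relations `M² = K² = 0`, `MK + KM = D²`, `MD + DM = KD + DK = 0`; equivalently
`M + tD - t²K` has square zero for all integers `t` -/
structure Rl (M K D : H →L[ℂ] H) : Prop where
  mm : M * M = 0
  kk : K * K = 0
  anti : M * K + K * M = D * D
  md : M * D + D * M = 0
  kd : K * D + D * K = 0

/-- `h` is the identity or the complex conjugation -/
def IC (h : ℂ → ℂ) : Prop := (∀ c, h c = c) ∨ (∀ c, h c = conj c)

/-- an orthonormal pair -/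
def Op (x y : H) : Prop := ‖x‖ = 1 ∧ ‖y‖ = 1 ∧ inner ℂ x y = 0

/-- description of `Φ` on the trace zero operators of the plane of the orthonormal pair `x, y` -/
def PD (Φ : (H →L[ℂ] H) → H →L[ℂ] H) (h : ℂ → ℂ) (δ : ℂ) (x y u v : H) : Prop :=
  ∀ a b c : ℂ, Φ (a • ro x y + b • ro y x + c • (ro x x - ro y y)) =
    δ • (h a • ro u v + h b • ro v u + h c • (ro u u - ro v v))

namespace AS

variable {L Φ : (H →L[ℂ] H) → H →L[ℂ] H}

omit [CompleteSpace H] in
lemma zero (h : AS L Φ) : Φ 0 = 0 := by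
  have := h.add 0 0
  simpa using this

omit [CompleteSpace H] in
lemma neg (h : AS L Φ) (A : H →L[ℂ] H) : Φ (-A) = -Φ A := by
  have h1 := h.add A (-A)
  rw [add_neg_cancel, h.zero] at h1
  exact (neg_eq_of_add_eq_zero_right h1.symm).symm

omit [CompleteSpace H] in
lemma sub (h : AS L Φ) (A B : H →L[ℂ] H) : Φ (A - B) = Φ A - Φ B := by
  rw [sub_eq_add_neg, h.add, h.neg, ← sub_eq_add_neg]

omit [CompleteSpace H] in
lemma eq_zero (h : AS L Φ) {A : H →L[ℂ] H} : Φ A = 0 ↔ A = 0 := by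
  constructor
  · intro hA
    exact h.bij.1 (hA.trans h.zero.symm)
  · rintro rfl
    exact h.zero

/-- the additive group homomorphism -/
def hom (h : AS L Φ) : (H →L[ℂ] H) →+ (H →L[ℂ] H) where
  toFun := Φ
  map_zero' := h.zero
  map_add' := h.add

omit [CompleteSpace H] in
lemma nsmul (h : AS L Φ) (n : ℕ) (A : H →L[ℂ] H) : Φ (n • A) = n • Φ A := h.hom.map_nsmul n A

omit [CompleteSpace H] in
lemma zsmul (h : AS L Φ) (n : ℤ) (A : H →L[ℂ] H) : Φ (n • A) = n • Φ A := h.hom.map_zsmul n A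

omit [CompleteSpace H] in
lemma natCast_smul (h : AS L Φ) (n : ℕ) (A : H →L[ℂ] H) : Φ ((n : ℂ) • A) = (n : ℂ) • Φ A := by
  rw [Nat.cast_smul_eq_nsmul, Nat.cast_smul_eq_nsmul, h.nsmul]

omit [CompleteSpace H] in
lemma intCast_smul (h : AS L Φ) (n : ℤ) (A : H →L[ℂ] H) : Φ ((n : ℂ) • A) = (n : ℂ) • Φ A := by
  rw [Int.cast_smul_eq_zsmul, Int.cast_smul_eq_zsmul, h.zsmul]

omit [CompleteSpace H] in
/-- the inverse -/
lemma exists_symm (h : AS L Φ) : ∃ Ψ : (H →L[ℂ] H) → H →L[ℂ] H, (∀ T, Φ (Ψ T) = T) ∧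
    (∀ T, Ψ (Φ T) = T) ∧ AS L Ψ := by
  let e := Equiv.ofBijective Φ h.bij
  have h1 : ∀ T, Φ (e.symm T) = T := e.apply_symm_apply
  have h2 : ∀ T, e.symm (Φ T) = T := e.symm_apply_apply
  refine ⟨e.symm, h1, h2, e.symm.bijective, fun A B => ?_, fun A => ?_⟩
  · apply h.bij.1
    rw [h1, h.add, h1, h1]
  · apply h.bij.1
    rw [h1, ← h.com, h1]

end AS

end Pool.Agent.H79.MT5
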