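import Mathlib

/-!
# Mean type transforms on `B(H)`: definitions
-/

open scoped ComplexOrder InnerProductSpace ComplexConjugate

namespace Pool.Agent.H79.MT

universe u

section Transforms

variable {H : Type u} [NormedAddCommGroup H] [InnerProductSpace ℂ H] [CompleteSpace H]

/-- `V` is the partial isometry of the polar decomposition `T = V |T|` with `ker V = ker T`. -/
structure IsPhase (T V : H →L[ℂ] H) : Prop where
  partial_isometry : V * star V * V = V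
  ker : ∀ x, V x = 0 ↔ T x = 0
  factor : V * CFC.abs T = T

/-- The partial isometry of the polar decomposition of `T` (it exists and is unique). -/
noncomputable def phase (T : H →L[ℂ] H) : H →L[ℂ] H := Classical.epsilon (IsPhase T)

/-- The `l`-Aluthge transform `|T|^l V |T|^(1-l)`. -/
noncomputable def aluthge (l : ℝ) (T : H →L[ℂ] H) : H →L[ℂ] H :=
  (CFC.abs T) ^ l * phase T * (CFC.abs T) ^ (1 - l)

/-- The mean transform `(T + |T| V) / 2`. -/
noncomputable def meanT (T : H →L[ℂ] H) : H →L[ℂ] H := (1 / 2 : ℂ) • (T + CFC.abs T * phase T)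

/-- The mean-Aluthge transform: the mean transform of the Aluthge transform. -/
noncomputable def meanAluthge (T : H →L[ℂ] H) : H →L[ℂ] H := meanT (aluthge (1 / 2) T)

/-- The transform `M_l`: the mean of the `l`- and the `(1-l)`-Aluthge transform. -/
noncomputable def meanL (l : ℝ) (T : H →L[ℂ] H) : H →L[ℂ] H :=
  (1 / 2 : ℂ) • (aluthge l T + aluthge (1 - l) T)

/-- The transforms of the question. -/
def IsTr (Λ : (H →L[ℂ] H) → (H →L[ℂ] H)) : Prop :=
  Λ = meanAluthge ∨ ∃ l : ℝ, 0 ≤ l ∧ l ≤ 1 / 2 ∧ Λ = meanL l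

/-- Bijective solutions of `Λ (Φ A ⋆ Φ B) = Φ (Λ (A ⋆ B))`. -/
def Sol (Λ : (H →L[ℂ] H) → (H →L[ℂ] H)) (op : (H →L[ℂ] H) → (H →L[ℂ] H) → (H →L[ℂ] H))
    (Φ : (H →L[ℂ] H) → (H →L[ℂ] H)) : Prop :=
  Function.Bijective Φ ∧ ∀ A B, Λ (op (Φ A) (Φ B)) = Φ (Λ (op A B))

/-- `Φ T = U T U⁻¹` with `U` unitary. -/
def ConjU (Φ : (H →L[ℂ] H) → (H →L[ℂ] H)) : Prop :=
  ∃ U : H ≃ₗᵢ[ℂ] H, ∀ T x, Φ T (U x) = U (T x)

/-- `Φ T = U T U⁻¹` with `U` anti-unitary. -/
def ConjA (Φ : (H →L[ℂ] H) → (H →L[ℂ] H)) : Prop :=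
  ∃ U : H ≃ₛₗᵢ[starRingEnd ℂ] H, ∀ T x, Φ T (U x) = U (T x)

end Transforms

end Pool.Agent.H79.MT
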