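import Pool.Agent.H79.MT.Targets5

/-!
# MP_c80a4f_an, operation 5: modules 5B and 5C
-/

open Pool.Agent.H48.MT InnerProductSpace
open scoped ComplexConjugate

namespace Pool.Agent.H79.MT5

theorem t_SB : T_SB := by
  intro H _ _ _ L m hL Φ hΦ A hA
  cases m with
  | false =>
    have h1 := (hL.ze0 rfl A).2 hA
    refine (hL.ze0 rfl (Φ A)).1 ?_
    rw [hΦ.com, h1, hΦ.zero]
  | true =>
    refine (hL.sq1 rfl (Φ A)).1 ?_
    have h1 := (hL.sq1 rfl A).2 hA
    rw [hΦ.com, two_smul, ← hΦ.add, ← two_smul ℂ, h1]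

theorem t_SC : T_SC := by
  intro H _ _ _ L Φ hΦ hsq
  refine ⟨fun A B hA hB hAB => ?_, fun M K D hR => ?_⟩
  · have h1 : (A + B) * (A + B) = 0 := by
      have : (A + B) * (A + B) = A * A + B * B + (A * B + B * A) := by noncomm_ring
      rw [this, hA, hB, hAB]; simp
    have h2 := hsq _ h1
    rw [hΦ.add] at h2
    have h3 : (Φ A + Φ B) * (Φ A + Φ B) = Φ A * Φ A + Φ B * Φ B + (Φ A * Φ B + Φ B * Φ A) := by
      noncomm_ring
    rw [h3, hsq A hA, hsq B hB] at h2
    simpa using h2
  · have key : ∀ t : ℤ, t • (Φ M * Φ D + Φ D * Φ M)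
        + (t * t) • (Φ D * Φ D - (Φ M * Φ K + Φ K * Φ M))
        - (t * t * t) • (Φ K * Φ D + Φ D * Φ K) = 0 := by
      intro t
      have h1 : (M + t • D - (t * t) • K) * (M + t • D - (t * t) • K) = 0 := by
        have : (M + t • D - (t * t) • K) * (M + t • D - (t * t) • K)
            = M * M + (t * t * t * t) • (K * K) + t • (M * D + D * M)
              + (t * t) • (D * D - (M * K + K * M)) - (t * t * t) • (K * D + D * K) := by
          simp only [mul_add, add_mul, mul_sub, sub_mul, smul_add, smul_sub, mul_smul_comm,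
            smul_mul_assoc, smul_smul]
          have e1 : t * (t * t) = t * t * t := by ring
          have e2 : t * t * (t * t) = t * t * t * t := by ring
          rw [e1, e2]
          abel
        rw [this, hR.mm, hR.kk, hR.md, hR.anti, hR.kd]
        simp
      have h2 := hsq _ h1
      rw [hΦ.sub, hΦ.add, hΦ.zsmul, hΦ.zsmul] at h2
      have h3 : (Φ M + t • Φ D - (t * t) • Φ K) * (Φ M + t • Φ D - (t * t) • Φ K)
          = Φ M * Φ M + (t * t * t * t) • (Φ K * Φ K) + t • (Φ M * Φ D + Φ D * Φ M)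
            + (t * t) • (Φ D * Φ D - (Φ M * Φ K + Φ K * Φ M))
            - (t * t * t) • (Φ K * Φ D + Φ D * Φ K) := by
        simp only [mul_add, add_mul, mul_sub, sub_mul, smul_add, smul_sub, mul_smul_comm,
          smul_mul_assoc, smul_smul]
        have e1 : t * (t * t) = t * t * t := by ring
        have e2 : t * t * (t * t) = t * t * t * t := by ring
        rw [e1, e2]
        abel
      rw [h3, hsq M hR.mm, hsq K hR.kk] at h2
      simpa using h2
    have k1 := key 1
    have k2 := key (-1)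
    have k3 := key 2
    set a := Φ M * Φ D + Φ D * Φ M
    set b := Φ D * Φ D - (Φ M * Φ K + Φ K * Φ M) with hb
    set c := Φ K * Φ D + Φ D * Φ K
    norm_num at k1 k2
    have e1 : (2 : ℂ) • b = 0 := by
      have : (2 : ℂ) • b = (a + b - c) + (-a + b + c) := by rw [two_smul]; abel
      rw [this, k1, k2, add_zero]
    have hb0 : b = 0 := by simpa using e1
    have hac : a = c := by
      rw [hb0] at k1
      simpa [sub_eq_zero] using k1
    have hc0 : c = 0 := by
      rw [hb0, hac, smul_zero, add_zero, ← Int.cast_smul_eq_zsmul ℂ, ← Int.cast_smul_eq_zsmul ℂ] at k3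
      have e : (6 : ℂ) • c = -(((2 : ℤ) : ℂ) • c - ((2 * 2 * 2 : ℤ) : ℂ) • c) := by
        push_cast
        module
      rw [k3, neg_zero] at e
      simpa using e
    refine ⟨hsq M hR.mm, hsq K hR.kk, ?_, hac.trans hc0, hc0⟩
    exact (sub_eq_zero.1 (hb ▸ hb0)).symm

end Pool.Agent.H79.MT5
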