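import Pool.Agent.H79.MT.Targets5

/-!
# MP_c80a4f_an, operation 5: module 5R (rank one square zero operators are preserved)
-/

open Pool.Agent.H48.MT InnerProductSpace
open scoped ComplexConjugate

namespace Pool.Agent.H79.MT5

variable {H : Type} [NormedAddCommGroup H] [InnerProductSpace ℂ H] [CompleteSpace H]

/-- the general relation -/
lemma rl_of_comm {M C : H →L[ℂ] H} (hM : M * M = 0) (hC : IsSelfAdjoint C) (hCM : C * M = M * C) :
    Rl M (C * C * (star M * M * star M)) (C * (M * star M - star M * M)) := by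
  set N := star M with hN
  have hNN : N * N = 0 := by rw [hN, ← star_mul, hM, star_zero]
  have hCN : C * N = N * C := by
    have := congrArg star hCM
    rw [star_mul, star_mul, hC.star_eq] at this
    exact this.symm
  have cM : Commute C M := hCM
  have cN : Commute C N := hCN
  set R := N * M * N with hR
  set S := M * N - N * M with hS
  have cR : Commute C R := (cN.mul_right cM).mul_right cN
  have cS : Commute C S := (cM.mul_right cN).sub_right (cN.mul_right cM)
  have hRR : R * R = 0 := by
    have : R * R = N * M * (N * N) * M * N := by rw [hR]; noncomm_ring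
    rw [this, hNN]; simp
  have hMS : M * S + S * M = 0 := by
    have : M * S + S * M = M * M * N - N * (M * M) := by rw [hS]; noncomm_ring
    rw [this, hM]; simp
  have hRS : R * S + S * R = 0 := by
    have : R * S + S * R = M * (N * N) * M * N - N * M * (N * N) * M := by
      rw [hS, hR]; noncomm_ring
    rw [this, hNN]; simp
  have hSS : S * S = M * R + R * M := by
    have : S * S = M * N * M * N + N * M * N * M - M * (N * N) * M - N * (M * M) * N := by
      rw [hS]; noncomm_ring
    rw [this, hNN, hM, hR]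
    simp only [mul_zero, zero_mul, sub_zero, mul_assoc]
  refine ⟨hM, ?_, ?_, ?_, ?_⟩
  · have : C * C * R * (C * C * R) = C * C * (R * (C * C)) * R := by noncomm_ring
    rw [this, ← (cR.mul_left cR).eq]
    have : C * C * (C * C * R) * R = C * C * (C * C) * (R * R) := by noncomm_ring
    rw [this, hRR, mul_zero]
  · have e1 : M * (C * C * R) = C * C * (M * R) := by
      rw [← mul_assoc, ← (cM.mul_left cM).eq, mul_assoc]
    have e2 : C * S * (C * S) = C * C * (S * S) := by
      have : C * S * (C * S) = C * (S * C) * S := by noncomm_ring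
      rw [this, ← cS.eq]; noncomm_ring
    rw [e1, e2, hSS, mul_add, mul_assoc (C * C) R M]
  · have e1 : M * (C * S) = C * (M * S) := by rw [← mul_assoc, ← cM.eq, mul_assoc]
    rw [e1, mul_assoc, ← mul_add, hMS, mul_zero]
  · have e1 : C * C * R * (C * S) = C * C * C * (R * S) := by
      have : C * C * R * (C * S) = C * C * (R * C) * S := by noncomm_ring
      rw [this, ← cR.eq]; noncomm_ring
    have e2 : C * S * (C * C * R) = C * C * C * (S * R) := by
      have : C * S * (C * C * R) = C * (S * (C * C)) * R := by noncomm_ring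
      rw [this, ← (cS.mul_left cS).eq]; noncomm_ring
    rw [e1, e2, ← mul_add, hRS, mul_zero]

lemma rl_eigen {x y : H} {K D : H →L[ℂ] H} (hy : y ≠ 0) (h : Rl (ro x y) K D) :
    ∃ d : ℂ, D x = d • x := by
  have h1 := h.md
  rw [mul_ro, ro_mul] at h1
  have h2 := congrArg (fun T : H →L[ℂ] H => T y) h1
  simp only [ContinuousLinearMap.add_apply, ro_apply, ContinuousLinearMap.zero_apply] at h2
  have hyy : (inner ℂ y y : ℂ) ≠ 0 := by
    rw [inner_self_ne_zero]
    exact hy
  refine ⟨-((inner ℂ y y : ℂ)⁻¹ * inner ℂ (star D y) y), ?_⟩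
  have h3 : inner ℂ y y • D x = -(inner ℂ (star D y) y • x) := by
    rw [add_comm] at h2
    exact eq_neg_of_add_eq_zero_left h2
  have h4 := congrArg (fun z : H => (inner ℂ y y : ℂ)⁻¹ • z) h3
  simp only [smul_smul, inv_mul_cancel₀ hyy, one_smul, smul_neg] at h4
  rw [h4, neg_smul]

lemma rl_cube {x y : H} {K D : H →L[ℂ] H} (h : Rl (ro x y) K D) (hD : D x = 0) : D ^ 3 = 0 := by
  have h1 : D ^ 3 = D * (D * D) := by noncomm_ring
  rw [h1, ← h.anti, mul_add, ← mul_assoc, ← mul_assoc, mul_ro, hD, ro_zero_left, zero_mul, zero_add,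
    mul_ro]
  have h2 := congrArg (fun T : H →L[ℂ] H => T x) h.kd
  simp only [ContinuousLinearMap.add_apply, ContinuousLinearMap.zero_apply,
    ContinuousLinearMap.mul_apply, hD, map_zero, zero_add] at h2
  rw [ContinuousLinearMap.mul_apply, h2, ro_zero_left]

theorem t_SR (hSB : T_SB) (hSC : T_SC) (hSK : T_SK) (hFXP : T_FXP) : T_SR := by
  intro H _ _ _ L m hL Φ hΦ x y hx hy hxy
  have hA : ro x y * ro x y = 0 := by rw [ro_mul_ro, hxy, zero_smul]
  have hM : Φ (ro x y) * Φ (ro x y) = 0 := hSB H L m hL Φ hΦ _ hA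
  have hM0 : Φ (ro x y) ≠ 0 := by
    intro h
    rw [hΦ.eq_zero, ro_eq_zero] at h
    exact h.elim hx hy
  by_cases hr : ∃ u v : H, Φ (ro x y) = ro u v
  · obtain ⟨u, v, huv⟩ := hr
    rw [huv] at hM hM0
    have hu : u ≠ 0 := fun h => hM0 (by simp [h])
    have hv : v ≠ 0 := fun h => hM0 (by simp [h])
    rw [ro_mul_ro, smul_eq_zero] at hM
    exact ⟨u, v, hu, hv, hM.resolve_right hM0, huv⟩
  exfalso
  set M := Φ (ro x y) with hMd
  obtain ⟨C₁, C₂, hs1, hs2, hc1, hc2, h12, h21, hn1, hn2⟩ := hSK H M hM hM0 hr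
  obtain ⟨Ψ, hi1, hi2, hΨ⟩ := hΦ.exists_symm
  have hΨM : Ψ M = ro x y := hi2 _
  have hSCΨ := (hSC H L Ψ hΨ (hSB H L m hL Ψ hΨ)).2
  have r1 := hSCΨ _ _ _ (rl_of_comm hM hs1 hc1)
  have r2 := hSCΨ _ _ _ (rl_of_comm hM hs2 hc2)
  have r3 := hSCΨ _ _ _ (rl_of_comm hM (hs1.add hs2)
    (by rw [add_mul, mul_add, hc1, hc2]))
  have ek : (C₁ + C₂) * (C₁ + C₂) * (star M * M * star M)
      = C₁ * C₁ * (star M * M * star M) + C₂ * C₂ * (star M * M * star M) := by
    have : (C₁ + C₂) * (C₁ + C₂) = C₁ * C₁ + C₂ * C₂ + (C₁ * C₂ + C₂ * C₁) := by noncomm_ring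
    rw [this, h12, h21, add_zero, add_zero, add_mul]
  rw [ek, add_mul, hΨ.add, hΨ.add, hΨM] at r3
  rw [hΨM] at r1 r2
  -- the elements `d` are fixed
  have hfix : ∀ C : H →L[ℂ] H, IsSelfAdjoint C → C * M = M * C →
      L (Ψ (C * (M * star M - star M * M))) = Ψ (C * (M * star M - star M * M)) := by
    intro C hC hCM
    rw [hΨ.com, hL.nor]
    have hCN : C * star M = star M * C := by
      have := congrArg star hCM
      rw [star_mul, star_mul, hC.star_eq] at this
      exact this.symm
    have cM : Commute C M := hCM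
    have cN : Commute C (star M) := hCN
    have cS : Commute C (M * star M - star M * M) :=
      (cM.mul_right cN).sub_right (cN.mul_right cM)
    have : IsSelfAdjoint (C * (M * star M - star M * M)) := by
      rw [IsSelfAdjoint, star_mul, star_sub, star_mul, star_mul, star_star, hC.star_eq]
      exact cS.eq.symm
    exact this.isStarNormal
  have hzero : ∀ C : H →L[ℂ] H, IsSelfAdjoint C → C * M = M * C → C * M ≠ 0 →
      ∀ K, Rl (ro x y) K (Ψ (C * (M * star M - star M * M))) →
      Ψ (C * (M * star M - star M * M)) x ≠ 0 := by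
    intro C hC hCM hne K hR h0
    have h1 := hFXP H L m hL _ (hfix C hC hCM) 3 (by norm_num)
    rw [rl_cube hR h0, norm_zero] at h1
    have h2 : Ψ (C * (M * star M - star M * M)) = 0 := by
      rw [← norm_eq_zero]
      exact pow_eq_zero_iff (three_ne_zero) |>.1 h1.symm
    rw [hΨ.eq_zero, mul_sub, sub_eq_zero] at h2
    have h3 : C * M * star M * M = 0 := by
      have : C * M * star M * M = C * (M * star M) * M := by noncomm_ring
      rw [this, h2]
      have : C * (star M * M) * M = C * star M * (M * M) := by noncomm_ring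
      rw [this, hM, mul_zero]
    have h4 : C * M * star M = 0 := by
      rw [← CStarRing.mul_star_self_eq_zero_iff]
      have : C * M * star M * star (C * M * star M) = C * M * star M * M * (star M * star C) := by
        rw [star_mul, star_mul, star_star]; noncomm_ring
      rw [this, h3, zero_mul]
    have h5 : C * M = 0 := by
      rw [← CStarRing.mul_star_self_eq_zero_iff, star_mul, ← mul_assoc, h4, zero_mul]
    exact hne h5
  obtain ⟨d1, hd1⟩ := rl_eigen hy r1
  obtain ⟨d2, hd2⟩ := rl_eigen hy r2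
  have hne1 : d1 ≠ 0 := by
    rintro rfl
    exact hzero C₁ hs1 hc1 hn1 _ r1 (by rw [hd1, zero_smul])
  have hne2 : d2 ≠ 0 := by
    rintro rfl
    exact hzero C₂ hs2 hc2 hn2 _ r2 (by rw [hd2, zero_smul])
  set D1 := Ψ (C₁ * (M * star M - star M * M))
  set D2 := Ψ (C₂ * (M * star M - star M * M))
  have hanti : D1 * D2 + D2 * D1 = 0 := by
    have e := r3.anti
    have e' : (D1 + D2) * (D1 + D2) = D1 * D1 + D2 * D2 + (D1 * D2 + D2 * D1) := by noncomm_ring
    rw [e', ← r1.anti, ← r2.anti] at e
    have e3 : D1 * D2 + D2 * D1 = 0 := by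
      have := sub_eq_zero.2 e
      rw [mul_add, add_mul] at this
      have h := neg_eq_zero.2 this
      rw [← h]
      abel
    exact e3
  have h := congrArg (fun T : H →L[ℂ] H => T x) hanti
  simp only [ContinuousLinearMap.add_apply, ContinuousLinearMap.zero_apply,
    ContinuousLinearMap.mul_apply, hd1, hd2, map_smul, smul_smul] at h
  rw [← add_smul, smul_eq_zero] at h
  have h' := h.resolve_right hx
  have : 2 * (d1 * d2) = 0 := by rw [← h']; ring
  simp [hne1, hne2] at this

end Pool.Agent.H79.MT5
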