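import Pool.Agent.H79.MT.Api5

/-!
# MP_c80a4f_an, operation 5: module 5T (triples, the transposed type is impossible)
-/

set_option linter.unusedSectionVars false

open Pool.Agent.H48.MT InnerProductSpace
open scoped ComplexConjugate

namespace Pool.Agent.H79.MT5

variable {H : Type} [NormedAddCommGroup H] [InnerProductSpace ℂ H] [CompleteSpace H]

lemma exists_perp {v w : H} (hw : ∀ c : ℂ, w ≠ c • v) :
    ∃ z : H, inner ℂ v z = 0 ∧ inner ℂ w z ≠ 0 := by
  by_cases hv : v = 0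
  · refine ⟨w, by simp [hv], ?_⟩
    rw [inner_self_ne_zero]
    have := hw 0
    rwa [zero_smul] at this
  have hvv : (inner ℂ v v : ℂ) ≠ 0 := inner_self_ne_zero.2 hv
  refine ⟨w - ((inner ℂ v v : ℂ)⁻¹ * inner ℂ v w) • v, ?_, ?_⟩
  · rw [inner_sub_right, inner_smul_right]
    field_simp
    ring
  · set z := w - ((inner ℂ v v : ℂ)⁻¹ * inner ℂ v w) • v with hz
    have hz0 : z ≠ 0 := fun h0 => hw _ (sub_eq_zero.1 h0)
    have hvz : inner ℂ v z = 0 := by
      rw [hz, inner_sub_right, inner_smul_right]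
      field_simp
      ring
    have e : w = z + ((inner ℂ v v : ℂ)⁻¹ * inner ℂ v w) • v := by rw [hz]; abel
    have e1 : inner ℂ w z = inner ℂ z z := by
      nth_rewrite 1 [e]
      rw [inner_add_left, inner_smul_left, hvz, mul_zero, add_zero]
    rw [e1]
    exact inner_self_ne_zero.2 hz0

/-- the sum of two rank one operators has rank one only if left or right vectors are dependent -/
lemma rk_two {u₁ v₁ u₂ v₂ p q : H} {a b : ℂ} (ha : a ≠ 0) (hb : b ≠ 0) (hu₁ : u₁ ≠ 0)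
    (hv₁ : v₁ ≠ 0) (h : a • ro u₁ v₁ + b • ro u₂ v₂ = ro p q) :
    (∃ c : ℂ, u₂ = c • u₁) ∨ ∃ c : ℂ, v₂ = c • v₁ := by
  by_cases h2 : ∃ c : ℂ, v₂ = c • v₁
  · exact Or.inr h2
  left
  push Not at h2
  obtain ⟨z, hz1, hz2⟩ := exists_perp h2
  have e1 := congrArg (fun T : H →L[ℂ] H => T z) h
  simp only [ContinuousLinearMap.add_apply, ContinuousLinearMap.smul_apply, ro_apply, hz1,
    zero_smul, smul_zero, zero_add, smul_smul] at e1
  by_cases h1 : ∃ c : ℂ, v₁ = c • v₂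
  · obtain ⟨c, hc⟩ := h1
    have hc0 : c ≠ 0 := by rintro rfl; exact hv₁ (by simp [hc])
    exact absurd (by rw [hc, smul_smul, inv_mul_cancel₀ hc0, one_smul]) (h2 c⁻¹)
  push Not at h1
  obtain ⟨t, ht1, ht2⟩ := exists_perp h1
  have e2 := congrArg (fun T : H →L[ℂ] H => T t) h
  simp only [ContinuousLinearMap.add_apply, ContinuousLinearMap.smul_apply, ro_apply, ht1,
    zero_smul, smul_zero, add_zero, smul_smul] at e2
  have hk : inner ℂ q t ≠ 0 := by
    intro h0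
    rw [h0, zero_smul, smul_eq_zero] at e2
    rcases e2 with e2 | e2
    · exact mul_ne_zero ha ht2 e2
    · exact hu₁ e2
  have hp : p = ((inner ℂ q t)⁻¹ * (a * inner ℂ v₁ t)) • u₁ := by
    rw [mul_smul, e2, smul_smul, inv_mul_cancel₀ hk, one_smul]
  have hbz : b * inner ℂ v₂ z ≠ 0 := mul_ne_zero hb hz2
  refine ⟨(b * inner ℂ v₂ z)⁻¹ * (inner ℂ q z * ((inner ℂ q t)⁻¹ * (a * inner ℂ v₁ t))), ?_⟩
  rw [mul_smul, mul_smul (inner ℂ q z), ← hp, ← e1, smul_smul, inv_mul_cancel₀ hbz, one_smul]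

lemma ro_phase {e v : H} {c : ℂ} (h : e = c • v) (hc : ‖c‖ = 1) : ro e e = ro v v := by
  subst h
  rw [ro_smul_left, ro_smul_right, smul_smul, Complex.mul_conj, Complex.normSq_eq_norm_sq, hc]
  simp

/-- the geometric lemma -/
lemma geo {p₁ p₂ e u v : H} {d₁ d₂ d₃ : ℂ} (h1 : ‖p₁‖ = 1) (he : ‖e‖ = 1)
    (h1e : inner ℂ p₁ e = 0) (h2e : inner ℂ p₂ e = 0) (hne : ∀ c : ℂ, p₂ ≠ c • p₁)
    (hd₁ : d₁ ≠ 0) (hd₂ : d₂ ≠ 0) (hd₃ : d₃ ≠ 0) (huv : Op u v)
    (h : d₁ • ro p₁ p₁ - d₂ • ro p₂ p₂ - (d₁ - d₂) • ro e e = d₃ • (ro u u - ro v v)) :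
    d₁ = d₂ ∧ inner ℂ u e = 0 ∧ inner ℂ v e = 0 := by
  have hp₁ : p₁ ≠ 0 := by
    rintro rfl
    rw [norm_zero] at h1
    exact zero_ne_one h1
  have he0 : e ≠ 0 := by
    rintro rfl
    rw [norm_zero] at he
    exact zero_ne_one he
  have e1 := congrArg (fun T : H →L[ℂ] H => T e) h
  simp only [ContinuousLinearMap.sub_apply, ContinuousLinearMap.smul_apply, ro_apply, h1e, h2e,
    zero_smul, smul_zero, zero_sub, sub_zero, inner_self_one he, one_smul] at e1
  -- inner products with `u` and `v`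
  have e2 : -((d₁ - d₂) * inner ℂ u e) = d₃ * inner ℂ u e := by
    have := congrArg (fun z : H => inner ℂ u z) e1
    simpa only [inner_neg_right, inner_smul_right, inner_sub_right, huv.inner_xx, huv.2.2,
      mul_one, mul_zero, sub_zero] using this
  have e3 : -((d₁ - d₂) * inner ℂ v e) = -(d₃ * inner ℂ v e) := by
    have := congrArg (fun z : H => inner ℂ v z) e1
    simpa only [inner_neg_right, inner_smul_right, inner_sub_right, huv.inner_yy, huv.inner_yx,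
      mul_one, mul_zero, zero_sub, mul_neg] using this
  -- no rank one operator is equal to the difference
  have hno : ∀ (k : ℂ) (w : H), d₁ • ro p₁ p₁ - d₂ • ro p₂ p₂ ≠ k • ro w w := by
    intro k w hw
    have hw' : d₁ • ro p₁ p₁ + (-d₂) • ro p₂ p₂ = ro (k • w) w := by
      rw [ro_smul_left, ← hw]; module
    rcases rk_two hd₁ (neg_ne_zero.2 hd₂) hp₁ hp₁ hw' with ⟨c, hc⟩ | ⟨c, hc⟩ <;> exact hne c hc
  have hd : d₁ = d₂ := by
    by_contra hdne
    have hd0 : d₁ - d₂ ≠ 0 := sub_ne_zero.2 hdne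
    by_cases hu : inner ℂ u e = 0
    · have hv : inner ℂ v e ≠ 0 := by
        intro hv
        rw [hu, hv] at e1
        simp only [zero_smul, sub_zero, smul_zero, neg_eq_zero, smul_eq_zero] at e1
        exact e1.elim hd0 he0
      have hd3 : d₁ - d₂ = d₃ := by
        have := neg_inj.1 e3
        exact mul_right_cancel₀ hv this
      have hve : e = inner ℂ v e • v := by
        rw [hu, hd3, zero_smul, zero_sub, smul_neg] at e1
        exact smul_right_injective H hd₃ (neg_inj.1 e1)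
      have hnv : ‖inner ℂ v e‖ = 1 := by
        have := congrArg norm hve
        rw [he, norm_smul, huv.2.1, mul_one] at this
        exact this.symm
      have hee : ro e e = ro v v := ro_phase hve hnv
      apply hno d₃ u
      have : d₁ • ro p₁ p₁ - d₂ • ro p₂ p₂
          = (d₁ • ro p₁ p₁ - d₂ • ro p₂ p₂ - (d₁ - d₂) • ro e e) + (d₁ - d₂) • ro e e := by abel
      rw [this, h, hee, hd3]
      module
    · have hd3 : -(d₁ - d₂) = d₃ := by
        rw [← neg_mul] at e2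
        exact mul_right_cancel₀ hu e2
      have hv : inner ℂ v e = 0 := by
        have e4 : (d₁ - d₂) * inner ℂ v e = d₃ * inner ℂ v e := neg_inj.1 e3
        rw [← hd3] at e4
        have e5 : 2 * ((d₁ - d₂) * inner ℂ v e) = 0 := by linear_combination e4
        rcases mul_eq_zero.1 e5 with e6 | e6
        · exact absurd e6 two_ne_zero
        · exact (mul_eq_zero.1 e6).resolve_left hd0
      have hue : e = inner ℂ u e • u := by
        rw [hv, ← hd3, zero_smul, sub_zero, neg_smul] at e1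
        exact smul_right_injective H hd0 (neg_inj.1 e1)
      have hnu : ‖inner ℂ u e‖ = 1 := by
        have := congrArg norm hue
        rw [he, norm_smul, huv.1, mul_one] at this
        exact this.symm
      have hee : ro e e = ro u u := ro_phase hue hnu
      apply hno (-d₃) v
      have : d₁ • ro p₁ p₁ - d₂ • ro p₂ p₂
          = (d₁ • ro p₁ p₁ - d₂ • ro p₂ p₂ - (d₁ - d₂) • ro e e) + (d₁ - d₂) • ro e e := by abel
      rw [this, h, hee, ← hd3]
      module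
  refine ⟨hd, ?_, ?_⟩
  · rw [hd, sub_self, zero_mul, neg_zero] at e2
    exact (mul_eq_zero.1 e2.symm).resolve_left hd₃
  · rw [hd, sub_self, zero_mul, neg_zero] at e3
    exact (mul_eq_zero.1 (neg_eq_zero.1 e3.symm)).resolve_left hd₃

theorem t_ST (hSB : T_SB) (hSC : T_SC) (hSR : T_SR) : T_ST := by
  intro H _ _ _ L m hL Φ hΦ h hh hall x y z u₁ v₁ u₂ v₂ d₁ d₂ hxy hxz hyz ho₁ ho₂ hd₁ hd₂ hp₁ hp₂
  obtain ⟨u₃, v₃, d₃, ho₃, hd₃, hp₃⟩ := hall x y hxy
  have hanti := (hSC H L Φ hΦ (hSB H L m hL Φ hΦ)).1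
  -- the two relations
  have ra : inner ℂ v₃ u₁ • ro u₃ v₁ + inner ℂ v₁ u₃ • ro u₁ v₃ = 0 := by
    have h1 := hanti (ro x y) (ro x z) (by rw [ro_mul_ro, hxy.inner_yx, zero_smul])
      (by rw [ro_mul_ro, hxz.inner_yx, zero_smul])
      (by rw [ro_mul_ro, ro_mul_ro, hxy.inner_yx, hxz.inner_yx, zero_smul, zero_smul, add_zero])
    rw [hp₃.xy1 hh, hp₁.xy1 hh] at h1
    simp only [smul_mul_smul_comm, ro_mul_ro] at h1
    rw [mul_comm d₁ d₃, ← smul_add, smul_eq_zero] at h1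
    exact h1.resolve_left (mul_ne_zero hd₃ hd₁)
  have rb : inner ℂ v₃ v₂ • ro u₃ u₂ + inner ℂ u₂ u₃ • ro v₂ v₃ = 0 := by
    have h1 := hanti (ro x y) (ro z y) (by rw [ro_mul_ro, hxy.inner_yx, zero_smul])
      (by rw [ro_mul_ro, hyz.2.2, zero_smul])
      (by rw [ro_mul_ro, ro_mul_ro, hyz.2.2, hxy.inner_yx, zero_smul, zero_smul, add_zero])
    rw [hp₃.xy1 hh, hp₂.yx1 hh] at h1
    simp only [smul_mul_smul_comm, ro_mul_ro] at h1
    rw [mul_comm d₂ d₃, ← smul_add, smul_eq_zero] at h1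
    exact h1.resolve_left (mul_ne_zero hd₃ hd₂)
  -- the difference of projections
  have hstar : d₁ • (ro u₁ u₁ - ro v₁ v₁) - d₂ • (ro u₂ u₂ - ro v₂ v₂)
      = d₃ • (ro u₃ u₃ - ro v₃ v₃) := by
    rw [← hp₁.dd1 hh, ← hp₂.dd1 hh, ← hp₃.dd1 hh, ← hΦ.sub]
    congr 1
    abel
  -- dependence
  have hdep : (∃ c : ℂ, u₂ = c • u₁) ∨ ∃ c : ℂ, v₂ = c • v₁ := by
    have hxy0 : x + y ≠ 0 := by
      intro h0
      have := congrArg (fun t : H => inner ℂ x t) h0
      simp only [inner_add_right, hxy.inner_xx, hxy.2.2, add_zero, inner_zero_right] at this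
      exact one_ne_zero this
    obtain ⟨p, q, -, -, -, hpq⟩ := hSR H L m hL Φ hΦ (x + y) z hxy0 hxz.ne_right
      (by rw [inner_add_right, hxz.inner_yx, hyz.inner_yx, add_zero])
    rw [ro_add_left, hΦ.add, hp₁.xy1 hh, hp₂.xy1 hh] at hpq
    exact rk_two hd₁ hd₂ ho₁.ne_left ho₁.ne_right hpq
  have hnotboth : ¬ ((∃ c : ℂ, u₂ = c • u₁) ∧ ∃ c : ℂ, v₂ = c • v₁) := by
    rintro ⟨⟨c, hc⟩, ⟨c', hc'⟩⟩
    obtain ⟨a, ha⟩ := hh.surj (d₁⁻¹ * (d₂ * (c * conj c')))
    have e1 : Φ (ro y z) = Φ (a • ro x z) := by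
      rw [hp₂.xy1 hh, hp₁.xy hh, ha, hc, hc', ro_smul_left, ro_smul_right, smul_smul, smul_smul]
      congr 1
      field_simp
    have e2 := hΦ.bij.1 e1
    have e3 := congrArg (fun T : H →L[ℂ] H => T z) e2
    simp only [ContinuousLinearMap.smul_apply, ro_apply, hxz.inner_yy, one_smul] at e3
    have e4 := hxy.2.2
    rw [e3, inner_smul_right, hxy.inner_xx, mul_one] at e4
    rw [e4, zero_smul] at e3
    exact hxy.ne_right e3
  have hnorm1 : ∀ {c : ℂ} {a b : H}, ‖a‖ = 1 → ‖b‖ = 1 → b = c • a → ‖c‖ = 1 := by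
    intro c a b ha hb hab
    have := congrArg norm hab
    rw [hb, norm_smul, ha, mul_one] at this
    exact this.symm
  by_cases hv : ∃ c : ℂ, v₂ = c • v₁
  · -- case I
    have hu : ∀ c : ℂ, u₂ ≠ c • u₁ := fun c hc => hnotboth ⟨⟨c, hc⟩, hv⟩
    obtain ⟨c, hc⟩ := hv
    have hc1 := hnorm1 ho₁.2.1 ho₂.2.1 hc
    have hc0 : c ≠ 0 := by
      rintro rfl
      rw [norm_zero] at hc1
      exact zero_ne_one hc1
    have hv11 : ro v₂ v₂ = ro v₁ v₁ := ro_phase hc hc1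
    have hu2v1 : inner ℂ u₂ v₁ = 0 := by
      have := ho₂.2.2
      rw [hc, inner_smul_right] at this
      exact (mul_eq_zero.1 this).resolve_left hc0
    obtain ⟨hd, hg1, hg2⟩ := geo (p₁ := u₁) (p₂ := u₂) (e := v₁) ho₁.1 ho₁.2.1 ho₁.2.2 hu2v1 hu
      hd₁ hd₂ hd₃ ho₃ (by rw [← hstar, hv11]; module)
    have hg3 : inner ℂ v₁ u₃ = 0 := by rw [← inner_conj_symm, hg1, map_zero]
    rw [hg3, zero_smul, add_zero, smul_eq_zero] at ra
    have h3 : inner ℂ v₃ u₁ = 0 := by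
      refine ra.resolve_right ?_
      rw [ro_eq_zero]
      exact not_or.2 ⟨ho₃.ne_left, ho₁.ne_right⟩
    have h4 : inner ℂ v₃ v₂ = 0 := by rw [hc, inner_smul_right, hg2, mul_zero]
    rw [h4, zero_smul, zero_add, smul_eq_zero] at rb
    have h5 : inner ℂ u₂ u₃ = 0 := by
      refine rb.resolve_right ?_
      rw [ro_eq_zero]
      exact not_or.2 ⟨ho₂.ne_right, ho₃.ne_right⟩
    refine ⟨hd, ?_, c, hc1, hc⟩
    -- apply the difference to `v₃`
    have e1 := congrArg (fun T : H →L[ℂ] H => T v₃) hstar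
    have h3' : inner ℂ u₁ v₃ = 0 := by rw [← inner_conj_symm, h3, map_zero]
    have hg2' : inner ℂ v₁ v₃ = 0 := by rw [← inner_conj_symm, hg2, map_zero]
    have h4' : inner ℂ v₂ v₃ = 0 := by rw [← inner_conj_symm, h4, map_zero]
    simp only [ContinuousLinearMap.sub_apply, ContinuousLinearMap.smul_apply, ro_apply, h3', hg2',
      h4', ho₃.2.2, ho₃.inner_yy, zero_smul, sub_zero, zero_sub, smul_zero, one_smul, smul_neg,
      neg_inj, smul_smul] at e1
    have e2 := congrArg (fun t : H => inner ℂ u₁ t) e1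
    simp only [inner_smul_right, h3', mul_zero] at e2
    rcases mul_eq_zero.1 e2 with e3 | e3
    · exfalso
      rw [e3, zero_smul] at e1
      rcases smul_eq_zero.1 e1.symm with e4 | e4
      · exact hd₃ e4
      · exact ho₃.ne_right e4
    · exact e3
  · -- case II
    exfalso
    obtain ⟨c, hc⟩ := hdep.resolve_right hv
    push Not at hv
    have hc1 := hnorm1 ho₁.1 ho₂.1 hc
    have hc0 : c ≠ 0 := by
      rintro rfl
      rw [norm_zero] at hc1
      exact zero_ne_one hc1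
    have hu11 : ro u₂ u₂ = ro u₁ u₁ := ro_phase hc hc1
    have hv2u1 : inner ℂ v₂ u₁ = 0 := by
      have := ho₂.symm.2.2
      rw [hc, inner_smul_right] at this
      exact (mul_eq_zero.1 this).resolve_left hc0
    obtain ⟨hd, hg1, hg2⟩ := geo (p₁ := v₁) (p₂ := v₂) (e := u₁) ho₁.2.1 ho₁.1 ho₁.inner_yx hv2u1
      hv hd₁ hd₂ hd₃ ho₃.symm (by
        have e : d₃ • (ro v₃ v₃ - ro u₃ u₃) = -(d₃ • (ro u₃ u₃ - ro v₃ v₃)) := by module
        rw [e, ← hstar, hu11]; module)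
    -- `hg1 : ⟨v₃, u₁⟩ = 0`, `hg2 : ⟨u₃, u₁⟩ = 0`
    rw [hg1, zero_smul, zero_add, smul_eq_zero] at ra
    have h3 : inner ℂ v₁ u₃ = 0 := by
      refine ra.resolve_right ?_
      rw [ro_eq_zero]
      exact not_or.2 ⟨ho₁.ne_left, ho₃.ne_right⟩
    have h4 : inner ℂ u₂ u₃ = 0 := by
      rw [← inner_conj_symm, hc, inner_smul_right, hg2, mul_zero, map_zero]
    rw [h4, zero_smul, add_zero, smul_eq_zero] at rb
    have h5 : inner ℂ v₃ v₂ = 0 := by
      refine rb.resolve_right ?_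
      rw [ro_eq_zero]
      exact not_or.2 ⟨ho₃.ne_left, ho₂.ne_left⟩
    have h5' : inner ℂ v₂ v₃ = 0 := by rw [← inner_conj_symm, h5, map_zero]
    have hg1' : inner ℂ u₁ v₃ = 0 := by rw [← inner_conj_symm, hg1, map_zero]
    have hg2' : inner ℂ u₁ u₃ = 0 := by rw [← inner_conj_symm, hg2, map_zero]
    rw [hu11, hd] at hstar
    -- apply to `v₃`
    have e1 := congrArg (fun T : H →L[ℂ] H => T v₃) hstar
    simp only [ContinuousLinearMap.sub_apply, ContinuousLinearMap.smul_apply, ro_apply, hg1',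
      h5', ho₃.2.2, ho₃.inner_yy, zero_smul, sub_zero, zero_sub, smul_zero, one_smul, smul_neg,
      neg_inj, smul_smul] at e1
    have e2 := congrArg (fun T : H →L[ℂ] H => T u₃) hstar
    simp only [ContinuousLinearMap.sub_apply, ContinuousLinearMap.smul_apply, ro_apply, hg2',
      h3, ho₃.inner_yx, ho₃.inner_xx, zero_smul, sub_zero, zero_sub, smul_zero, one_smul, smul_neg,
      neg_neg, smul_smul, neg_zero] at e2
    have hv3 : v₃ = (d₃⁻¹ * (d₂ * inner ℂ v₁ v₃)) • v₁ := by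
      rw [mul_smul, e1, smul_smul, inv_mul_cancel₀ hd₃, one_smul]
    have hu3 : u₃ = (d₃⁻¹ * (d₂ * inner ℂ v₂ u₃)) • v₂ := by
      rw [mul_smul, e2, smul_smul, inv_mul_cancel₀ hd₃, one_smul]
    set k := d₃⁻¹ * (d₂ * inner ℂ v₁ v₃) with hk
    set k' := d₃⁻¹ * (d₂ * inner ℂ v₂ u₃) with hk'
    have hk0 : k ≠ 0 := by
      intro h0
      rw [h0, zero_smul] at hv3
      exact ho₃.ne_right hv3
    have hk0' : k' ≠ 0 := by
      intro h0
      rw [h0, zero_smul] at hu3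
      exact ho₃.ne_left hu3
    have hv12 : inner ℂ v₁ v₂ = 0 := by
      have := h3
      rw [hu3, inner_smul_right] at this
      exact (mul_eq_zero.1 this).resolve_left hk0'
    have hphi : Φ (ro x y) = (d₃ * (k' * conj k)) • ro v₂ v₁ := by
      rw [hp₃.xy1 hh, hu3, hv3, ro_smul_left, ro_smul_right, smul_smul, smul_smul]
      ring_nf
    have hκ : d₃ * (k' * conj k) ≠ 0 :=
      mul_ne_zero hd₃ (mul_ne_zero hk0' ((map_ne_zero _).2 hk0))
    set κ := d₃ * (k' * conj k)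
    have hphi2 : Φ (ro y z) = d₂ • ro u₂ v₂ := hp₂.xy1 hh
    have hT : Φ ((1 : ℂ) • ro x y + (1 : ℂ) • ro y z) = d₂ • ro u₂ v₂ + κ • ro v₂ v₁ := by
      rw [one_smul, one_smul, hΦ.add, hphi, hphi2, add_comm]
    have hv21 : inner ℂ v₂ v₁ = 0 := by rw [← inner_conj_symm, hv12, map_zero]
    have hu2v1 : inner ℂ u₂ v₁ = 0 := by rw [hc, inner_smul_left, ho₁.2.2, mul_zero]
    have hfin : ∀ c₁ c₂ : ℂ, c₂ ≠ 0 → c₂ • ro v₂ v₁ ≠ Φ (c₁ • ro y z) := by
      intro c₁ c₂ hc₂ he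
      rw [hp₂.xy hh] at he
      have e5 := congrArg (fun T : H →L[ℂ] H => T v₁) he
      simp only [ContinuousLinearMap.smul_apply, ro_apply, hv21, ho₁.inner_yy, zero_smul,
        smul_zero, one_smul, smul_eq_zero] at e5
      exact e5.elim hc₂ ho₂.ne_right
    cases m with
    | false =>
      obtain ⟨c₁, -, hc₁⟩ := hL.ch0 rfl x y z hxy.1 hxy.2.1 hyz.2.1 hxy.2.2 hyz.2.2 hxz.2.2 1 1
        one_ne_zero one_ne_zero
      obtain ⟨c₂, hc₂0, hc₂⟩ := hL.ch0 rfl u₂ v₂ v₁ ho₂.1 ho₂.2.1 ho₁.2.1 ho₂.2.2 hv21 hu2v1 d₂ κ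
        hd₂ hκ
      apply hfin c₁ c₂ hc₂0
      rw [← hc₁, ← hc₂, ← hΦ.com, hT]
    | true =>
      obtain ⟨c₁, -, hc₁⟩ := hL.ch1 rfl x y z hxy.1 hxy.2.1 hyz.2.1 hxy.2.2 hyz.2.2 hxz.2.2 1 1
        one_ne_zero one_ne_zero
      obtain ⟨c₂, hc₂0, hc₂⟩ := hL.ch1 rfl u₂ v₂ v₁ ho₂.1 ho₂.2.1 ho₁.2.1 ho₂.2.2 hv21 hu2v1 d₂ κ
        hd₂ hκ
      apply hfin c₁ c₂ hc₂0
      rw [← hc₁, ← hc₂, two_smul, two_smul, hΦ.sub, hΦ.add, ← hΦ.com, hT]

end Pool.Agent.H79.MT5
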