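import Pool.Agent.H79.MT.Api5
import Pool.Agent.H79.MT.M5R
import Pool.Agent.H79.MT.M5T

/-!
# MP_c80a4f_an, operation 5: module 5P (the three basic operators of a plane)
-/

set_option linter.unusedSectionVars false

open Pool.Agent.H48.MT InnerProductSpace
open scoped ComplexConjugate

namespace Pool.Agent.H79.MT5

variable {H : Type} [NormedAddCommGroup H] [InnerProductSpace ℂ H] [CompleteSpace H]

lemma normal_norm {N : H →L[ℂ] H} (hN : IsStarNormal N) (x : H) : ‖star N x‖ = ‖N x‖ := by
  have h := congrArg (fun T : H →L[ℂ] H => inner ℂ x (T x)) hN.star_comm_self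
  simp only [ContinuousLinearMap.mul_apply] at h
  have e1 : inner ℂ x (star N (N x)) = inner ℂ (N x) (N x) :=
    ContinuousLinearMap.adjoint_inner_right N x (N x)
  have e2 : inner ℂ x (N (star N x)) = inner ℂ (star N x) (star N x) :=
    (ContinuousLinearMap.adjoint_inner_left N (star N x) x).symm
  rw [e1, e2, inner_self_eq_norm_sq_to_K, inner_self_eq_norm_sq_to_K] at h
  have h' : ‖N x‖ ^ 2 = ‖star N x‖ ^ 2 := by exact_mod_cast h
  exact ((sq_eq_sq₀ (norm_nonneg _) (norm_nonneg _)).1 h').symm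

lemma normal_sub {N : H →L[ℂ] H} (hN : IsStarNormal N) (d : ℂ) : IsStarNormal (N - d • 1) := by
  constructor
  have h := hN.star_comm_self
  rw [star_sub, star_smul, star_one]
  have c1 : Commute (star N) (N - d • 1) :=
    (show Commute (star N) N from h).sub_right ((Commute.one_right _).smul_right _)
  have c2 : Commute ((star d) • (1 : H →L[ℂ] H)) (N - d • 1) :=
    (Commute.one_left _).smul_left _
  exact c1.sub_left c2

lemma normal_eigen {N : H →L[ℂ] H} (hN : IsStarNormal N) {x : H} {d : ℂ} (h : N x = d • x) :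
    star N x = conj d • x := by
  have h1 := normal_norm (normal_sub hN d) x
  have h2 : (N - d • 1) x = 0 := by
    simp [h]
  rw [h2, norm_zero, norm_eq_zero, star_sub, star_smul, star_one] at h1
  simpa [sub_eq_zero] using h1

lemma normal_star {N : H →L[ℂ] H} (hN : IsStarNormal N) : IsStarNormal (star N) := by
  constructor
  rw [star_star]
  exact (show Commute (star N) N from hN.star_comm_self).symm

lemma rl_eigen' {x y : H} {K D : H →L[ℂ] H} (hx : x ≠ 0) (h : Rl (ro x y) K D) {d : ℂ}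
    (hd : D x = d • x) : star D y = -conj d • y := by
  have h1 := h.md
  rw [mul_ro, ro_mul, hd, ro_smul_left] at h1
  have h2 : ro x (star D y + conj d • y) = 0 := by
    rw [ro_add_right, ro_smul_right]
    simpa using h1
  rw [ro_eq_zero] at h2
  have h3 := h2.resolve_left hx
  rw [eq_neg_of_add_eq_zero_left h3, neg_smul]

lemma Rl.symm {M K D : H →L[ℂ] H} (h : Rl M K D) : Rl K M D :=
  ⟨h.kk, h.mm, by rw [add_comm]; exact h.anti, h.kd, h.md⟩

theorem t_SP (hSB : T_SB) (hSC : T_SC) (hSR : T_SR) (hSN : T_SN) (hFXP : T_FXP) (hTR : T_TR) :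
    T_SP := by
  intro H _ _ _ L m hL Φ hΦ x y hxy
  obtain ⟨-, fro, fadd, fsmul, -, -⟩ := hTR H
  obtain ⟨p, q, hp, hq, hqp, hE⟩ := hSR H L m hL Φ hΦ x y hxy.ne_left hxy.ne_right hxy.inner_yx
  obtain ⟨r, s, hr, hs, hsr, hF⟩ := hSR H L m hL Φ hΦ y x hxy.ne_right hxy.ne_left hxy.2.2
  set D := ro x x - ro y y with hD
  -- the decomposition of `D`
  have hne1 : x + y ≠ 0 := by
    intro h0
    have := congrArg (fun t : H => inner ℂ x t) h0
    simp only [inner_add_right, hxy.inner_xx, hxy.2.2, add_zero, inner_zero_right] at this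
    exact one_ne_zero this
  have hne2 : x - y ≠ 0 := by
    intro h0
    have := congrArg (fun t : H => inner ℂ x t) h0
    simp only [inner_sub_right, hxy.inner_xx, hxy.2.2, sub_zero, inner_zero_right] at this
    exact one_ne_zero this
  have h12 : inner ℂ (x + y) (x - y) = (0 : ℂ) := by
    rw [inner_add_left, inner_sub_right, inner_sub_right, hxy.inner_xx, hxy.inner_yy, hxy.2.2,
      hxy.inner_yx]
    ring
  have h21 : inner ℂ (x - y) (x + y) = (0 : ℂ) := by rw [← inner_conj_symm, h12, map_zero]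
  have hDdec : D = ro ((2 : ℂ)⁻¹ • (x + y)) (x - y) + ro ((2 : ℂ)⁻¹ • (x - y)) (x + y) := by
    rw [hD]
    simp only [ro_smul_left, ro_add_left, ro_sub_left, ro_add_right, ro_sub_right]
    module
  obtain ⟨a₁, b₁, -, -, -, h1⟩ := hSR H L m hL Φ hΦ ((2 : ℂ)⁻¹ • (x + y)) (x - y)
    (smul_ne_zero (by norm_num) hne1) hne2 (by rw [inner_smul_right, h21, mul_zero])
  obtain ⟨a₂, b₂, -, -, -, h2⟩ := hSR H L m hL Φ hΦ ((2 : ℂ)⁻¹ • (x - y)) (x + y)
    (smul_ne_zero (by norm_num) hne2) hne1 (by rw [inner_smul_right, h12, mul_zero])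
  have hDsa : IsSelfAdjoint D := by
    rw [IsSelfAdjoint, hD, star_sub, star_ro, star_ro]
  have hFRD : FR (Φ D) := by
    rw [hDdec, hΦ.add, h1, h2]
    exact fadd _ _ (fro _ _) (fro _ _)
  have hDfix : L (Φ D) = Φ D := by rw [hΦ.com, hL.nor _ hDsa.isStarNormal]
  have hDn : IsStarNormal (Φ D) := hSN H L m hL _ hFRD hDfix
  have hDD : Φ D ≠ 0 := by
    rw [Ne, hΦ.eq_zero]
    intro h0
    have := congrArg (fun T : H →L[ℂ] H => T x) h0
    simp only [hD, ContinuousLinearMap.sub_apply, ro_apply, hxy.inner_xx, hxy.inner_yx, one_smul,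
      zero_smul, sub_zero, ContinuousLinearMap.zero_apply] at this
    exact hxy.ne_left this
  -- the relation
  have hRl : Rl (ro p q) (ro r s) (Φ D) := by
    rw [← hE, ← hF]
    refine (hSC H L Φ hΦ (hSB H L m hL Φ hΦ)).2 _ _ _ ⟨?_, ?_, ?_, ?_, ?_⟩
    · rw [ro_mul_ro, hxy.inner_yx, zero_smul]
    · rw [ro_mul_ro, hxy.2.2, zero_smul]
    · simp only [hD, mul_sub, sub_mul, ro_mul_ro, hxy.inner_xx, hxy.inner_yy, hxy.2.2,
        hxy.inner_yx, one_smul, zero_smul, sub_zero, zero_sub, sub_neg_eq_add]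
    · simp only [hD, mul_sub, sub_mul, ro_mul_ro, hxy.inner_xx, hxy.inner_yy, hxy.2.2,
        hxy.inner_yx, one_smul, zero_smul, sub_zero, zero_sub, neg_add_cancel]
    · simp only [hD, mul_sub, sub_mul, ro_mul_ro, hxy.inner_xx, hxy.inner_yy, hxy.2.2,
        hxy.inner_yx, one_smul, zero_smul, sub_zero, zero_sub, add_neg_cancel]
  obtain ⟨d, hd⟩ := rl_eigen hq hRl
  have hd0 : d ≠ 0 := by
    rintro rfl
    have h3 := hFXP H L m hL _ hDfix 3 (by norm_num)
    rw [rl_cube hRl (by rw [hd, zero_smul]), norm_zero] at h3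
    exact hDD (norm_eq_zero.1 ((pow_eq_zero_iff three_ne_zero).1 h3.symm))
  have hdq := rl_eigen' hp hRl hd
  obtain ⟨e, he⟩ := rl_eigen hs hRl.symm
  have hes := rl_eigen' hr hRl.symm he
  -- `D' q = - d q`, `D' s = - e s`
  have hdq' : Φ D q = -d • q := by
    have := normal_eigen (normal_star hDn) hdq
    rw [star_star] at this
    simpa using this
  have hes' : Φ D s = -e • s := by
    have := normal_eigen (normal_star hDn) hes
    rw [star_star] at this
    simpa using this
  -- the square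
  have hsq : ∀ z, Φ D (Φ D z) = (inner ℂ q r * inner ℂ s z) • p + (inner ℂ s p * inner ℂ q z) • r := by
    intro z
    have := congrArg (fun T : H →L[ℂ] H => T z) hRl.anti
    simp only [ContinuousLinearMap.add_apply, ContinuousLinearMap.mul_apply, ro_apply, map_smul,
      smul_smul] at this
    rw [← this, mul_comm (inner ℂ s z), mul_comm (inner ℂ q z)]
  have hdsq : d * d = inner ℂ q r * inner ℂ s p := by
    have := hsq p
    rw [hd, map_smul, hd, hqp, mul_zero, zero_smul, add_zero, smul_smul] at this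
    exact smul_left_injective ℂ hp this
  have hqr : inner ℂ q r ≠ 0 := by
    intro h0
    rw [h0, zero_mul] at hdsq
    exact mul_ne_zero hd0 hd0 hdsq
  have hsp : inner ℂ s p ≠ 0 := by
    intro h0
    rw [h0, mul_zero] at hdsq
    exact mul_ne_zero hd0 hd0 hdsq
  have hed : e = -d := by
    have e1 : inner ℂ q (Φ D r) = e * inner ℂ q r := by rw [he, inner_smul_right]
    have e2 : inner ℂ q (Φ D r) = -d * inner ℂ q r := by
      rw [← ContinuousLinearMap.adjoint_inner_left, ← ContinuousLinearMap.star_eq_adjoint, hdq,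
        inner_smul_left]
      simp
    exact mul_right_cancel₀ hqr (e1.symm.trans e2)
  have hqq : (inner ℂ q q : ℂ) ≠ 0 := inner_self_ne_zero.2 hq
  have hss : (inner ℂ s s : ℂ) ≠ 0 := inner_self_ne_zero.2 hs
  have hq1 : (d * d) • q = (inner ℂ q r * inner ℂ s q) • p + (inner ℂ s p * inner ℂ q q) • r := by
    rw [← hsq q, hdq', map_smul, hdq', smul_smul, neg_mul_neg]
  have hα : inner ℂ s q = 0 := by
    have h3 := congrArg (Φ D) hq1
    rw [map_add, map_smul, map_smul, map_smul, hd, he, hed, hdq'] at h3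
    have h4 : (2 * d) • ((inner ℂ q r * inner ℂ s q) • p) = 0 := by
      have e1 : (2 * d) • ((inner ℂ q r * inner ℂ s q) • p)
          = ((inner ℂ q r * inner ℂ s q) • d • p + (inner ℂ s p * inner ℂ q q) • -d • r)
          + d • ((inner ℂ q r * inner ℂ s q) • p + (inner ℂ s p * inner ℂ q q) • r) := by module
      rw [e1, ← h3, ← hq1]
      module
    rw [smul_eq_zero] at h4
    rcases h4 with h4 | h4
    · exact absurd h4 (mul_ne_zero two_ne_zero hd0)
    · rw [smul_eq_zero] at h4
      exact (mul_eq_zero.1 (h4.resolve_right hp)).resolve_left hqr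
  rw [hα, mul_zero, zero_smul, zero_add] at hq1
  have hr1 : r = ((inner ℂ s p * inner ℂ q q)⁻¹ * (d * d)) • q := by
    rw [mul_smul, hq1, smul_smul, inv_mul_cancel₀ (mul_ne_zero hsp hqq), one_smul]
  have hα' : inner ℂ q s = 0 := by rw [← inner_conj_symm, hα, map_zero]
  have hs1 : s = ((d * d)⁻¹ * (inner ℂ q r * inner ℂ s s)) • p := by
    have := hsq s
    rw [hes', map_smul, hes', hed, neg_neg, smul_smul, hα', mul_zero, zero_smul, add_zero] at this
    rw [mul_smul, ← this, smul_smul, inv_mul_cancel₀ (mul_ne_zero hd0 hd0), one_smul]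
  set c := (inner ℂ s p * inner ℂ q q)⁻¹ * (d * d) with hc
  set c' := (d * d)⁻¹ * (inner ℂ q r * inner ℂ s s) with hc'
  -- normalisation
  have hnp : (‖p‖ : ℂ) ≠ 0 := by
    rw [Ne, Complex.ofReal_eq_zero, norm_eq_zero]; exact hp
  have hnq : (‖q‖ : ℂ) ≠ 0 := by
    rw [Ne, Complex.ofReal_eq_zero, norm_eq_zero]; exact hq
  obtain ⟨u, hu⟩ : ∃ u : H, u = (‖p‖ : ℂ)⁻¹ • p := ⟨_, rfl⟩
  obtain ⟨v, hv⟩ : ∃ v : H, v = (‖q‖ : ℂ)⁻¹ • q := ⟨_, rfl⟩
  have hpu : p = (‖p‖ : ℂ) • u := by rw [hu, smul_smul, mul_inv_cancel₀ hnp, one_smul]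
  have hqv : q = (‖q‖ : ℂ) • v := by rw [hv, smul_smul, mul_inv_cancel₀ hnq, one_smul]
  have huv : Op u v := by
    refine ⟨?_, ?_, ?_⟩
    · rw [hu, norm_smul, norm_inv, Complex.norm_real, norm_norm]
      exact inv_mul_cancel₀ (norm_ne_zero_iff.2 hp)
    · rw [hv, norm_smul, norm_inv, Complex.norm_real, norm_norm]
      exact inv_mul_cancel₀ (norm_ne_zero_iff.2 hq)
    · have : inner ℂ p q = 0 := by rw [← inner_conj_symm, hqp, map_zero]
      rw [hu, hv, inner_smul_left, inner_smul_right, this, mul_zero, mul_zero]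
  obtain ⟨a, b, ha0, hEa, hFb⟩ : ∃ a b : ℂ, a ≠ 0 ∧ Φ (ro x y) = a • ro u v ∧
      Φ (ro y x) = b • ro v u := by
    refine ⟨‖p‖ * ‖q‖, c * conj c' * (‖p‖ * ‖q‖), mul_ne_zero hnp hnq, ?_, ?_⟩
    · rw [hE]
      nth_rewrite 1 [hpu]
      nth_rewrite 1 [hqv]
      rw [ro_smul_left, ro_smul_right, Complex.conj_ofReal, smul_smul]
    · rw [hF, hr1, hs1, ro_smul_left, ro_smul_right, smul_smul]
      nth_rewrite 1 [hqv]
      nth_rewrite 1 [hpu]
      rw [ro_smul_left, ro_smul_right, Complex.conj_ofReal, smul_smul, smul_smul]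
      congr 1
      ring
  have hDu : Φ D u = d • u := by rw [hu, map_smul, hd, smul_comm]
  have hDv : Φ D v = -d • v := by rw [hv, map_smul, hdq', smul_comm]
  have hR2 : Rl (a • ro u v) (b • ro v u) (Φ D) := by rw [← hEa, ← hFb, hE, hF]; exact hRl
  have hsqop : Φ D * Φ D = (a * b) • (ro u u + ro v v) := by
    rw [← hR2.anti]
    simp only [smul_mul_smul_comm, ro_mul_ro, huv.inner_xx, huv.inner_yy, one_smul]
    rw [mul_comm b a, smul_add]
  have hab : a * b = d * d := by
    have := congrArg (fun T : H →L[ℂ] H => T u) hsqop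
    simp only [ContinuousLinearMap.mul_apply, hDu, map_smul, ContinuousLinearMap.smul_apply,
      ContinuousLinearMap.add_apply, ro_apply, huv.inner_xx, huv.inner_yx, one_smul, zero_smul,
      add_zero, smul_smul] at this
    exact (smul_left_injective ℂ huv.ne_left this).symm
  -- the form of `D'`
  have hDform : Φ D = d • (ro u u - ro v v) := by
    have key : Φ D * (1 - ro u u - ro v v) = 0 := by
      have h3 : Φ D * Φ D * (1 - ro u u - ro v v) = 0 := by
        rw [hsqop, smul_mul_assoc]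
        simp only [mul_sub, add_mul, mul_one, ro_mul_ro, huv.inner_xx, huv.inner_yy, huv.2.2,
          huv.inner_yx, one_smul, zero_smul, add_zero, zero_add]
        simp
      ext z
      have h4 := congrArg (fun T : H →L[ℂ] H => T z) h3
      simp only [ContinuousLinearMap.mul_apply, ContinuousLinearMap.zero_apply] at h4 ⊢
      set t := (1 - ro u u - ro v v : H →L[ℂ] H) z
      have h5 := normal_norm hDn (Φ D t)
      rw [h4, norm_zero, norm_eq_zero] at h5
      have h6 : inner ℂ t (star (Φ D) (Φ D t)) = 0 := by rw [h5, inner_zero_right]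
      rw [ContinuousLinearMap.star_eq_adjoint, ContinuousLinearMap.adjoint_inner_right,
        inner_self_eq_zero] at h6
      exact h6
    rw [mul_sub, mul_sub, mul_one, mul_ro, mul_ro, hDu, hDv, ro_smul_left, ro_smul_left] at key
    rw [sub_sub, sub_eq_zero] at key
    rw [key]
    module
  -- reality
  have hN2 : IsStarNormal (Φ (D + ro x y + ro y x)) := by
    apply hSN H L m hL
    · rw [hΦ.add, hΦ.add, hE, hF]
      exact fadd _ _ (fadd _ _ hFRD (fro _ _)) (fro _ _)
    · rw [hΦ.com, hL.nor]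
      have : IsSelfAdjoint (D + ro x y + ro y x) := by
        rw [IsSelfAdjoint, star_add, star_add, hDsa.star_eq, star_ro, star_ro]
        abel
      exact this.isStarNormal
  have hreal : conj a * d = b * conj d := by
    rw [hΦ.add, hΦ.add, hEa, hFb, hDform] at hN2
    have h3 := congrArg (fun T : H →L[ℂ] H => inner ℂ v (T u)) hN2.star_comm_self
    simp only [star_add, star_smul, star_sub, star_ro, ContinuousLinearMap.mul_apply,
      ContinuousLinearMap.add_apply, ContinuousLinearMap.smul_apply, ContinuousLinearMap.sub_apply,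
      ro_apply, huv.inner_xx, huv.inner_yx, one_smul, zero_smul, add_zero, sub_zero, smul_zero,
      smul_smul, inner_add_right, inner_smul_right, inner_sub_right, huv.inner_yy, huv.2.2,
      mul_one, mul_zero, zero_sub, zero_add, RCLike.star_def] at h3
    linear_combination h3 / 2
  have hdd : d * conj d = a * conj a := by
    have : (d * conj d) * d = (a * conj a) * d := by
      calc (d * conj d) * d = (d * d) * conj d := by ring
        _ = a * (b * conj d) := by rw [← hab]; ring
        _ = (a * conj a) * d := by rw [← hreal]; ring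
    exact mul_right_cancel₀ hd0 this
  have hcd : conj d ≠ 0 := (map_ne_zero _).2 hd0
  have hz : ‖a * d⁻¹‖ = 1 := by
    have h3 : (‖d‖ : ℂ) ^ 2 = (‖a‖ : ℂ) ^ 2 := by
      rw [Complex.mul_conj, Complex.mul_conj, Complex.normSq_eq_norm_sq,
        Complex.normSq_eq_norm_sq] at hdd
      exact_mod_cast hdd
    have h4 : ‖d‖ ^ 2 = ‖a‖ ^ 2 := by exact_mod_cast h3
    have h5 : ‖d‖ = ‖a‖ := (sq_eq_sq₀ (norm_nonneg _) (norm_nonneg _)).1 h4
    rw [norm_mul, norm_inv, ← h5]
    exact mul_inv_cancel₀ (norm_ne_zero_iff.2 hd0)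
  refine ⟨(a * d⁻¹) • u, v, d, ⟨by rw [norm_smul, hz, huv.1, one_mul], huv.2.1,
    by rw [inner_smul_left, huv.2.2, mul_zero]⟩, hd0, ?_, ?_, ?_⟩
  · rw [hEa, ro_smul_left, smul_smul]
    congr 1
    field_simp
  · rw [hFb, ro_smul_right, smul_smul]
    congr 1
    rw [map_mul, map_inv₀]
    field_simp
    linear_combination -hreal
  · rw [hDform, ro_phase rfl hz]

end Pool.Agent.H79.MT5
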