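import Pool.Agent.H79.MT.Api5
import Pool.Agent.H79.MT.M5T

/-!
# MP_c80a4f_an, operation 5: modules 5U (uniqueness of the data) and 5Q (change of basis)
-/

set_option linter.unusedSectionVars false

open Pool.Agent.H48.MT InnerProductSpace
open scoped ComplexConjugate

namespace Pool.Agent.H79.MT5

variable {H : Type} [NormedAddCommGroup H] [InnerProductSpace ℂ H] [CompleteSpace H]

lemma conj_mul_self_one {c : ℂ} (hc : ‖c‖ = 1) : c * conj c = 1 := by
  rw [Complex.mul_conj, Complex.normSq_eq_norm_sq, hc]
  norm_num

theorem t_SU : T_SU := by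
  intro H _ _ _ Φ h h' δ δ' x y u v u' v' hh hh' hxy huv huv' hδ hδ' hp hp'
  have e1 : δ • ro u v = δ' • ro u' v' := by rw [← hp.xy1 hh, ← hp'.xy1 hh']
  have e3 : δ • (ro u u - ro v v) = δ' • (ro u' u' - ro v' v') := by
    rw [← hp.dd1 hh, ← hp'.dd1 hh']
  have e1' : conj δ • ro v u = conj δ' • ro v' u' := by
    have := congrArg star e1
    simpa only [star_smul, star_ro, RCLike.star_def] using this
  obtain ⟨c, hc⟩ : ∃ c : ℂ, u' = c • u := by
    have e := congrArg (fun T : H →L[ℂ] H => T v') e1
    simp only [ContinuousLinearMap.smul_apply, ro_apply, huv'.inner_yy, one_smul,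
      smul_smul] at e
    exact ⟨δ'⁻¹ * (δ * inner ℂ v v'), by rw [mul_smul, e, smul_smul, inv_mul_cancel₀ hδ', one_smul]⟩
  obtain ⟨l, hl⟩ : ∃ c : ℂ, v' = c • v := by
    have e := congrArg (fun T : H →L[ℂ] H => T u') e1'
    simp only [ContinuousLinearMap.smul_apply, ro_apply, huv'.inner_xx, one_smul,
      smul_smul] at e
    have hδc : conj δ' ≠ 0 := (map_ne_zero _).2 hδ'
    exact ⟨(conj δ')⁻¹ * (conj δ * inner ℂ u u'), by
      rw [mul_smul, e, smul_smul, inv_mul_cancel₀ hδc, one_smul]⟩
  have hc1 : ‖c‖ = 1 := by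
    have := congrArg norm hc
    rw [huv'.1, norm_smul, huv.1, mul_one] at this
    exact this.symm
  have hl1 : ‖l‖ = 1 := by
    have := congrArg norm hl
    rw [huv'.2.1, norm_smul, huv.2.1, mul_one] at this
    exact this.symm
  rw [ro_phase hc hc1, ro_phase hl hl1] at e3
  have hδδ : δ' = δ := by
    have := congrArg (fun T : H →L[ℂ] H => T u) e3
    simp only [ContinuousLinearMap.smul_apply, ContinuousLinearMap.sub_apply, ro_apply,
      huv.inner_xx, huv.inner_yx, one_smul, zero_smul, sub_zero] at this
    exact (smul_left_injective ℂ huv.ne_left this).symm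
  subst hδδ
  have hro : ro u v ≠ 0 := by
    rw [Ne, ro_eq_zero]
    exact not_or.2 ⟨huv.ne_left, huv.ne_right⟩
  have hcl : c * conj l = 1 := by
    rw [hc, hl, ro_smul_left, ro_smul_right, smul_smul] at e1
    have e2 : (1 : ℂ) • ro u v = (c * conj l) • ro u v := by
      rw [one_smul]
      rw [smul_smul, mul_assoc, ← smul_smul] at e1
      exact smul_right_injective _ hδ' e1
    exact (smul_left_injective ℂ hro e2).symm
  have hll := conj_mul_self_one hl1
  have hcl' : c = l := by
    have hl0 : conj l ≠ 0 := by
      intro h0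
      rw [h0, mul_zero] at hll
      exact zero_ne_one hll
    exact mul_right_cancel₀ hl0 (hcl.trans hll.symm)
  subst hcl'
  refine ⟨rfl, ?_, c, hc1, hc, hl⟩
  funext a
  have e4 := (hp.xy hh a).symm.trans (hp'.xy hh' a)
  have e5 : ro u' v' = ro u v := by
    rw [hc, hl, ro_smul_left, ro_smul_right, smul_smul, conj_mul_self_one hc1, one_smul]
  rw [e5] at e4
  exact (mul_left_cancel₀ hδ' (smul_left_injective ℂ hro e4)).symm

/-- the form on the operators of trace zero of the plane, in terms of four coefficients -/
lemma PD.four {Φ : (H →L[ℂ] H) → H →L[ℂ] H} {h : ℂ → ℂ} {δ : ℂ} {x y u v : H}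
    (hp : PD Φ h δ x y u v) (hh : IC h) (a b c d : ℂ) (hd : c + d = 0) :
    Φ (a • ro x y + b • ro y x + c • ro x x + d • ro y y) =
      δ • (h a • ro u v + h b • ro v u + h c • ro u u + h d • ro v v) := by
  have hd' : d = -c := by linear_combination hd
  subst hd'
  have := hp a b c
  have e1 : a • ro x y + b • ro y x + c • ro x x + -c • ro y y
      = a • ro x y + b • ro y x + c • (ro x x - ro y y) := by module
  rw [e1, this, hh.neg]
  module

lemma ro4 (x y : H) (a b a' b' : ℂ) : ro (a • x + b • y) (a' • x + b' • y)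
    = (a * conj b') • ro x y + (b * conj a') • ro y x + (a * conj a') • ro x x
      + (b * conj b') • ro y y := by
  simp only [ro_add_left, ro_add_right, ro_smul_left, ro_smul_right, smul_add, smul_smul]
  module

lemma ro_expand (x y : H) (A B C a b c : ℂ) (hc : c * conj c = 1) :
    A • ro (a • x + b • y) (c • (-(conj b) • x + conj a • y))
      + B • ro (c • (-(conj b) • x + conj a • y)) (a • x + b • y)
      + C • (ro (a • x + b • y) (a • x + b • y)
        - ro (c • (-(conj b) • x + conj a • y)) (c • (-(conj b) • x + conj a • y)))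
      = (A * (conj c * (a * a)) - B * (c * (conj b * conj b)) + C * (a * conj b + a * conj b))
          • ro x y
      + (B * (c * (conj a * conj a)) - A * (conj c * (b * b)) + C * (b * conj a + b * conj a))
          • ro y x
      + (C * (a * conj a - b * conj b) - A * (conj c * (a * b)) - B * (c * (conj a * conj b)))
        • ro x x
      + (A * (conj c * (a * b)) + B * (c * (conj a * conj b)) + C * (b * conj b - a * conj a))
        • ro y y := by
  have hY : c • (-(conj b) • x + conj a • y) = (-(c * conj b)) • x + (c * conj a) • y := by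
    module
  rw [hY, ro4, ro4, ro4, ro4]
  simp only [map_mul, map_neg, Complex.conj_conj]
  match_scalars
  · linear_combination (C * (a * conj b)) * hc
  · linear_combination (C * (b * conj a)) * hc
  · linear_combination (-(C * (b * conj b))) * hc
  · linear_combination (-(C * (a * conj a))) * hc

theorem t_SQ : T_SQ := by
  intro H _ _ _ Φ h δ x y u v a b c hh hxy huv hp hab hc
  have hab' : a * conj a + b * conj b = 1 := by
    rw [Complex.mul_conj, Complex.mul_conj, Complex.normSq_eq_norm_sq, Complex.normSq_eq_norm_sq]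
    exact_mod_cast hab
  have hcc := conj_mul_self_one hc
  have hop : ∀ {x y : H} {a b c : ℂ}, Op x y → a * conj a + b * conj b = 1 → ‖c‖ = 1 →
      Op (a • x + b • y) (c • (-(conj b) • x + conj a • y)) := by
    intro x y a b c hxy hab hc
    have hcc := conj_mul_self_one hc
    have n1 : inner ℂ (a • x + b • y) (a • x + b • y) = (1 : ℂ) := by
      simp only [inner_add_left, inner_add_right, inner_smul_left, inner_smul_right, hxy.inner_xx,
        hxy.inner_yy, hxy.2.2, hxy.inner_yx]
      linear_combination hab
    have n2 : inner ℂ (c • (-(conj b) • x + conj a • y)) (c • (-(conj b) • x + conj a • y))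
        = (1 : ℂ) := by
      simp only [inner_add_left, inner_add_right, inner_smul_left, inner_smul_right, hxy.inner_xx,
        hxy.inner_yy, hxy.2.2, hxy.inner_yx, map_neg, Complex.conj_conj]
      linear_combination (c * conj c) * hab + hcc
    have n3 : inner ℂ (a • x + b • y) (c • (-(conj b) • x + conj a • y)) = (0 : ℂ) := by
      simp only [inner_add_left, inner_add_right, inner_smul_left, inner_smul_right, hxy.inner_xx,
        hxy.inner_yy, hxy.2.2, hxy.inner_yx]
      ring
    have key : ∀ z : H, inner ℂ z z = (1 : ℂ) → ‖z‖ = 1 := by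
      intro z hz
      rw [inner_self_eq_norm_sq_to_K] at hz
      have h1 : ((‖z‖ : ℝ) : ℂ) ^ 2 = 1 := hz
      have h2 : ‖z‖ ^ 2 = 1 := by exact_mod_cast h1
      nlinarith [norm_nonneg z]
    exact ⟨key _ n1, key _ n2, n3⟩
  have hhab : h a * conj (h a) + h b * conj (h b) = 1 := by
    rw [← hh.hconj, ← hh.hconj, ← hh.mul, ← hh.mul, ← hh.add, hab', hh.one]
  refine ⟨hop hxy hab' hc, hop huv hhab (by rw [hh.norm, hc]), ?_⟩
  intro A B C
  have hcc' : h c * conj (h c) = 1 := conj_mul_self_one (by rw [hh.norm, hc])
  rw [ro_expand x y A B C a b c hcc, hp.four hh _ _ _ _ (by ring),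
    ro_expand u v (h A) (h B) (h C) (h a) (h b) (h c) hcc']
  simp only [hh.add, hh.sub, hh.mul, hh.hconj]

end Pool.Agent.H79.MT5
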