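import Pool.Agent.H79.MT.M5A
import Pool.Agent.H79.MT.M5B
import Pool.Agent.H79.MT.M5P
import Pool.Agent.H79.MT.M5R
import Pool.Agent.H79.MT.M5T
import Pool.Agent.H79.MT.M5U
import Pool.Agent.H4.MT.SGD
import Pool.Agent.H4.MT.SH
import Pool.Agent.H4.MT.SL
import Pool.Agent.H4.MT.SV
import Pool.Agent.H27.MT.F5
import Pool.Agent.H27.MT.N5
import Pool.Agent.H27.MT.X5
import Pool.Agent.H27.MT.Z5
import Pool.Agent.H97.MT.SI1
import Pool.Agent.H97.MT.SI2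
import Pool.Agent.H97.MT.SK
import Pool.Agent.H37.MT.FXP
import Pool.Agent.H37.MT.TR
import Pool.Agent.H92.MT.LLD
import Pool.Agent.H38.MT.DA
import Pool.Agent.H38.MT.DB

/-!
# MP_c80a4f_an: operation 5 and dimension one, assembled
-/

open Pool.Agent.H48.MT

namespace Pool.Agent.H79.MT5

theorem q_SR : T_SR := t_SR t_SB t_SC H97.MT.sk H37.MT.fxp

theorem q_SP : T_SP := t_SP t_SB t_SC q_SR H27.MT.sN H37.MT.fxp H37.MT.tr

theorem q_ST : T_ST := t_ST t_SB t_SC q_SR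

theorem q_SH : T_SH := sh_proof q_SP t_SC t_SB

theorem q_SG : T_SG := sg_proof q_SH t_SQ

theorem q_SD : T_SD := sd_proof q_SG q_ST t_SQ

theorem q_SV : T_SV := sv_proof q_ST

theorem q_SX : T_SX := H27.MT.sX q_SD q_SV H27.MT.sW q_SR

theorem q_SZ : T_SZ := H27.MT.sZ H27.MT.sF H92.MT.lld

theorem q_SI3 : T_SI3 := H27.MT.sI3 H97.MT.si1 H97.MT.si2

theorem q_SL : T_SL := sl_proof H27.MT.sF H37.MT.tr

theorem q_SE : T_SE := H27.MT.sE q_SX t_SB q_SZ q_SI3 H27.MT.sJ q_SL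

/-- operation 5 -/
theorem op5 (hLM : T_LM) : T_SO := H27.MT.sO hLM t_SA q_SE

/-- dimension one -/
theorem dim1 (hBAS : T_BAS) : T_DB := H38.MT.db (H38.MT.da hBAS)

end Pool.Agent.H79.MT5
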