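import Pool.Agent.H79.MT.Targets5

/-!
# MP_c80a4f_an, operation 5: module 5A (additivity)
-/

open Pool.Agent.H48.MT InnerProductSpace Filter Topology
open scoped ComplexConjugate

namespace Pool.Agent.H79.MT5

variable {H : Type} [NormedAddCommGroup H] [InnerProductSpace ℂ H] [CompleteSpace H]

lemma L_scal {L : (H →L[ℂ] H) → H →L[ℂ] H} {m : Bool} (hL : Lm L m) (s : ℂ) :
    L (s • 1) = s • (1 : H →L[ℂ] H) :=
  hL.nor _ ⟨by
    rw [star_smul, star_one]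
    exact (Commute.one_right _).smul_right _⟩

lemma sa_step {L : (H →L[ℂ] H) → H →L[ℂ] H} {m : Bool} (hL : Lm L m) {w : ℂ}
    {Φ Ψ : (H →L[ℂ] H) → H →L[ℂ] H} (h1 : ∀ T, Ψ (Φ T) = T) (h2 : ∀ T, Φ (Ψ T) = T)
    (h5 : Eq5 w L Φ) (h5' : Eq5 w L Ψ) (s : ℂ) (hs : s ≠ 0) (B : H →L[ℂ] H) :
    Φ (s • 1 - w • B) = Φ (s • 1) + w • Φ 0 - w • Φ B := by
  have e1 : L (Φ (s • 1) + w • Φ 0) = Φ (s • 1) := by
    rw [h5, smul_zero, add_zero, L_scal hL]
  have e2 : L (Ψ (Φ (s • 1) + w • Φ 0 - w • Φ B) + w • Ψ (Φ B)) = s • 1 := by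
    rw [h5', sub_add_cancel, e1, h1]
  have e3 := hL.sca s _ hs e2
  rw [h1] at e3
  have e4 : Ψ (Φ (s • 1) + w • Φ 0 - w • Φ B) = s • 1 - w • B := eq_sub_of_add_eq e3
  rw [← e4, h2]

omit [CompleteSpace H] in
lemma lin_seq_zero {X Y : H →L[ℂ] H}
    (h : Tendsto (fun n : ℕ => (n : ℂ) • X + Y) atTop (𝓝 0)) : X = 0 ∧ Y = 0 := by
  have h1 : Tendsto (fun n : ℕ => ((n + 1 : ℕ) : ℂ) • X + Y) atTop (𝓝 0) :=
    h.comp (tendsto_add_atTop_nat 1)
  have h2 := h1.sub h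
  have h3 : (fun n : ℕ => (((n + 1 : ℕ) : ℂ) • X + Y) - ((n : ℂ) • X + Y)) = fun _ => X := by
    funext n
    push_cast
    rw [add_smul, one_smul]
    abel
  rw [h3, sub_zero] at h2
  have hX : X = 0 := tendsto_nhds_unique tendsto_const_nhds h2
  subst hX
  refine ⟨rfl, ?_⟩
  simp only [smul_zero, zero_add] at h
  exact tendsto_nhds_unique tendsto_const_nhds h

theorem t_SA : T_SA := by
  intro H _ _ _ L m hL w Φ hw hbij h5
  obtain ⟨Ψ, h1, h2⟩ := Function.bijective_iff_has_inverse.1 hbij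
  change ∀ T, Ψ (Φ T) = T at h1
  change ∀ T, Φ (Ψ T) = T at h2
  have h5' : Eq5 w L Ψ := by
    intro A B
    have := h5 (Ψ A) (Ψ B)
    rw [h2, h2] at this
    rw [this, h1]
  have sΦ := sa_step hL h1 h2 h5 h5'
  have sΨ := sa_step hL h2 h1 h5' h5
  set K := Φ 0 with hK
  -- `F A = Φ A - K`
  have hF0 : ∀ s : ℂ, s ≠ 0 → ∀ B, Φ (s • 1 - w • B) - K = (Φ (s • 1) - K) - w • (Φ B - K) := by
    intro s hs B
    rw [sΦ s hs B, smul_sub]
    abel
  have hF1 : ∀ (s t : ℂ), s ≠ 0 → t ≠ 0 → ∀ Z, Φ (Z + (s - t) • 1) - K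
      = (Φ Z - K) + (Φ (s • 1) - K) - (Φ (t • 1) - K) := by
    intro s t hs ht Z
    have e1 := hF0 s hs (w⁻¹ • (t • 1 - Z))
    have e2 := hF0 t ht (w⁻¹ • (t • 1 - Z))
    rw [smul_smul, mul_inv_cancel₀ hw, one_smul] at e1 e2
    have e3 : s • 1 - (t • 1 - Z) = Z + (s - t) • (1 : H →L[ℂ] H) := by
      rw [sub_smul]; abel
    have e4 : t • 1 - (t • 1 - Z) = Z := by abel
    rw [e3] at e1
    rw [e4] at e2
    rw [e1, e2]
    abel
  have hF2 : ∀ (c : ℂ) Z, Φ (Z + c • 1) - K = (Φ Z - K) + (Φ (c • 1) - K) := by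
    intro c Z
    obtain ⟨t, ht, hct⟩ : ∃ t : ℂ, t ≠ 0 ∧ c + t ≠ 0 := by
      by_cases hc : c = 0
      · exact ⟨1, one_ne_zero, by simp [hc]⟩
      · exact ⟨c, hc, by rw [← two_mul]; exact mul_ne_zero two_ne_zero hc⟩
    have e1 := hF1 (c + t) t hct ht Z
    have e2 := hF1 (c + t) t hct ht 0
    rw [add_sub_cancel_right] at e1 e2
    rw [zero_add] at e2
    rw [e1, e2]
    simp only [← hK]
    abel
  have hF3 : ∀ B, Φ (-(w • B)) - K = -(w • (Φ B - K)) := by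
    intro B
    have e1 := hF0 1 one_ne_zero B
    have e2 := hF2 1 (-(w • B))
    have e3 : -(w • B) + (1 : ℂ) • 1 = (1 : ℂ) • 1 - w • B := by abel
    rw [e3, e1] at e2
    have e4 : (Φ (-(w • B)) - K) = ((Φ ((1 : ℂ) • 1) - K) - w • (Φ B - K))
      - (Φ ((1 : ℂ) • 1) - K) := by rw [e2]; abel
    rw [e4]
    abel
  -- the element `T`
  have hT : ∀ t : ℂ, t ≠ 0 → ∃ T, ∀ Z, Φ (T + Z) - K = t • 1 - (1 + w) • K + (Φ Z - K) := by
    intro t ht
    refine ⟨Ψ (t • 1) + w • Ψ 0, fun Z => ?_⟩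
    have hZ : Z = -(w • (-(w⁻¹ • Z))) := by
      rw [smul_neg, smul_smul, mul_inv_cancel₀ hw, one_smul, neg_neg]
    set B := -(w⁻¹ • Z) with hB
    have e1 := sΨ t ht (Φ B)
    rw [h1] at e1
    have e2 : Ψ (t • 1) + w • Ψ 0 + Z = Ψ (t • 1 - w • Φ B) := by
      rw [e1]; nth_rewrite 1 [hZ]; abel
    rw [e2, h2]
    have e3 := hF3 B
    rw [← hZ] at e3
    rw [e3, add_smul, one_smul, smul_sub]
    abel
  have hid : ∀ A Z, L ((Φ A - K) - (Φ Z - K) + (1 + w) • K) = Φ (L (A - Z)) := by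
    intro A Z
    have hZ : Z = -(w • (-(w⁻¹ • Z))) := by
      rw [smul_neg, smul_smul, mul_inv_cancel₀ hw, one_smul, neg_neg]
    set B := -(w⁻¹ • Z) with hB
    have e1 := h5 A B
    have e3 := hF3 B
    rw [← hZ] at e3
    have e4 : (Φ A - K) - (Φ Z - K) + (1 + w) • K = Φ A + w • Φ B := by
      rw [e3, add_smul, one_smul, smul_sub]; abel
    have e5 : A - Z = A + w • B := by nth_rewrite 1 [hZ]; abel
    rw [e4, e5, e1]
  have hid2 : ∀ t : ℂ, t ≠ 0 → ∃ T, ∀ A Z, L (t • 1 + ((Φ A - K) - (Φ Z - K)))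
      = Φ (L (T + (A - Z))) := by
    intro t ht
    obtain ⟨T, hT⟩ := hT t ht
    refine ⟨T, fun A Z => ?_⟩
    have e1 := hid (T + A) Z
    rw [hT A] at e1
    have e2 : t • 1 - (1 + w) • K + (Φ A - K) - (Φ Z - K) + (1 + w) • K
      = t • 1 + ((Φ A - K) - (Φ Z - K)) := by abel
    have e3 : T + A - Z = T + (A - Z) := by abel
    rw [e2, e3] at e1
    exact e1
  have hsub : ∀ A Z, (Φ A - K) - (Φ Z - K) = Φ (A - Z) - K := by
    intro A Z
    have a1 := hL.as1 ((Φ A - K) - (Φ Z - K))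
    have a2 := hL.as1 (Φ (A - Z) - K)
    have a3 := a1.sub a2
    rw [sub_zero] at a3
    have a4 : (fun n : ℕ => (L ((n : ℂ) • 1 + ((Φ A - K) - (Φ Z - K))) - (n : ℂ) • 1
        - ((Φ A - K) - (Φ Z - K))) - (L ((n : ℂ) • 1 + (Φ (A - Z) - K)) - (n : ℂ) • 1
        - (Φ (A - Z) - K))) =ᶠ[atTop] fun _ => (Φ (A - Z) - K) - ((Φ A - K) - (Φ Z - K)) := by
      filter_upwards [eventually_gt_atTop 0] with n hn
      obtain ⟨T, hT⟩ := hid2 (n : ℂ) (by exact_mod_cast hn.ne')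
      have e1 := hT A Z
      have e2 := hT (A - Z) 0
      rw [sub_zero, ← hK, sub_self, sub_zero] at e2
      rw [e1, e2]
      abel
    have a5 := (tendsto_congr' a4).1 a3
    have a6 := tendsto_nhds_unique tendsto_const_nhds a5
    exact (sub_eq_zero.1 a6).symm
  have hneg : ∀ Z, Φ (-Z) - K = -(Φ Z - K) := by
    intro Z
    have := hsub 0 Z
    rw [← hK, sub_self, zero_sub, zero_sub] at this
    exact this.symm
  have hadd : ∀ A B, Φ (A + B) - K = (Φ A - K) + (Φ B - K) := by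
    intro A B
    have := hsub A (-B)
    rw [hneg, sub_neg_eq_add, sub_neg_eq_add] at this
    exact this.symm
  have hnat : ∀ (n : ℕ) A, Φ ((n : ℂ) • A) - K = (n : ℂ) • (Φ A - K) := by
    intro n A
    induction n with
    | zero => simp [← hK]
    | succ n ih =>
      push_cast
      rw [add_smul, one_smul, hadd, ih, add_smul, one_smul]
  have hK0 : K = 0 := by
    have hA1 : Φ (Ψ (1 + K)) - K = 1 := by rw [h2]; abel
    set A1 := Ψ (1 + K) with hA1d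
    have e1 : ∀ n : ℕ, L ((n : ℂ) • 1 + (1 + w) • K) = (n : ℂ) • (Φ (L A1) - K) + K := by
      intro n
      have e2 := hid ((n : ℂ) • A1) 0
      rw [hnat, hA1, ← hK, sub_self, sub_zero, sub_zero, hL.hom] at e2
      rw [e2, ← hnat]
      abel
    have e2 := hL.as1 ((1 + w) • K)
    have e3 : (fun n : ℕ => L ((n : ℂ) • 1 + (1 + w) • K) - (n : ℂ) • 1 - (1 + w) • K)
        = fun n : ℕ => (n : ℂ) • (Φ (L A1) - K - 1) + (-(w • K)) := by
      funext n
      rw [e1 n, add_smul, one_smul, smul_sub _ _ (1 : H →L[ℂ] H)]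
      abel
    rw [e3] at e2
    have e4 := (lin_seq_zero e2).2
    rw [neg_eq_zero, smul_eq_zero] at e4
    exact e4.resolve_left hw
  have hadd' : ∀ A B, Φ (A + B) = Φ A + Φ B := by
    intro A B
    have := hadd A B
    simpa [hK0] using this
  refine ⟨⟨hbij, hadd', fun A => ?_⟩, fun A => ?_⟩
  · have := hid A 0
    rw [← hK, sub_self, sub_zero, sub_zero, hK0, sub_zero, smul_zero, add_zero] at this
    exact this
  · have e1 := hF3 A
    have e2 := hneg (w • A)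
    rw [e2, neg_inj, hK0, sub_zero, sub_zero] at e1
    exact e1

end Pool.Agent.H79.MT5
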