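import Pool.Agent.H48.MT.Targets
import Pool.Agent.H79.MT.Basic5

/-!
# MP_c80a4f_an: module targets for operation 5 (the sum) and for dimension one
-/

open Pool.Agent.H48.MT InnerProductSpace Filter Topology
open scoped ComplexConjugate

namespace Pool.Agent.H79.MT5

/-! ## S: the sum -/

/-- additivity and homogeneity -/
def T_SA : Prop := ∀ (H : Type) [NormedAddCommGroup H] [InnerProductSpace ℂ H] [CompleteSpace H]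
  (L : (H →L[ℂ] H) → H →L[ℂ] H) (m : Bool), Lm L m → ∀ (w : ℂ) (Φ : (H →L[ℂ] H) → H →L[ℂ] H),
  w ≠ 0 → Function.Bijective Φ → Eq5 w L Φ → AS L Φ ∧ ∀ A, Φ (w • A) = w • Φ A

/-- square zero operators are preserved -/
def T_SB : Prop := ∀ (H : Type) [NormedAddCommGroup H] [InnerProductSpace ℂ H] [CompleteSpace H]
  (L : (H →L[ℂ] H) → H →L[ℂ] H) (m : Bool), Lm L m → ∀ Φ : (H →L[ℂ] H) → H →L[ℂ] H, AS L Φ →
  ∀ A, A * A = 0 → Φ A * Φ A = 0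

/-- the relations are preserved -/
def T_SC : Prop := ∀ (H : Type) [NormedAddCommGroup H] [InnerProductSpace ℂ H] [CompleteSpace H]
  (L Φ : (H →L[ℂ] H) → H →L[ℂ] H), AS L Φ → (∀ A, A * A = 0 → Φ A * Φ A = 0) →
  (∀ A B, A * A = 0 → B * B = 0 → A * B + B * A = 0 → Φ A * Φ B + Φ B * Φ A = 0) ∧
  ∀ M K D, Rl M K D → Rl (Φ M) (Φ K) (Φ D)

/-- a square zero operator which has not rank one has two orthogonal pieces -/
def T_SK : Prop := ∀ (H : Type) [NormedAddCommGroup H] [InnerProductSpace ℂ H] [CompleteSpace H]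
  (M : H →L[ℂ] H), M * M = 0 → M ≠ 0 → (¬ ∃ u v : H, M = ro u v) →
  ∃ C₁ C₂ : H →L[ℂ] H, IsSelfAdjoint C₁ ∧ IsSelfAdjoint C₂ ∧ C₁ * M = M * C₁ ∧ C₂ * M = M * C₂ ∧
    C₁ * C₂ = 0 ∧ C₂ * C₁ = 0 ∧ C₁ * M ≠ 0 ∧ C₂ * M ≠ 0

/-- rank one square zero operators are mapped to rank one operators -/
def T_SR : Prop := ∀ (H : Type) [NormedAddCommGroup H] [InnerProductSpace ℂ H] [CompleteSpace H]
  (L : (H →L[ℂ] H) → H →L[ℂ] H) (m : Bool), Lm L m → ∀ Φ : (H →L[ℂ] H) → H →L[ℂ] H, AS L Φ →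
  ∀ x y : H, x ≠ 0 → y ≠ 0 → inner ℂ y x = 0 →
    ∃ u v : H, u ≠ 0 ∧ v ≠ 0 ∧ inner ℂ v u = 0 ∧ Φ (ro x y) = ro u v

/-- fixed operators of finite rank are normal -/
def T_SN : Prop := ∀ (H : Type) [NormedAddCommGroup H] [InnerProductSpace ℂ H] [CompleteSpace H]
  (L : (H →L[ℂ] H) → H →L[ℂ] H) (m : Bool), Lm L m → ∀ T, FR T → L T = T → IsStarNormal T

/-- the images of the three basic operators of a plane -/
def T_SP : Prop := ∀ (H : Type) [NormedAddCommGroup H] [InnerProductSpace ℂ H] [CompleteSpace H]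
  (L : (H →L[ℂ] H) → H →L[ℂ] H) (m : Bool), Lm L m → ∀ Φ : (H →L[ℂ] H) → H →L[ℂ] H, AS L Φ →
  ∀ x y : H, Op x y → ∃ (u v : H) (δ : ℂ), Op u v ∧ δ ≠ 0 ∧ Φ (ro x y) = δ • ro u v ∧
    Φ (ro y x) = δ • ro v u ∧ Φ (ro x x - ro y y) = δ • (ro u u - ro v v)

/-- a plane: homogeneity -/
def T_SH : Prop := ∀ (H : Type) [NormedAddCommGroup H] [InnerProductSpace ℂ H] [CompleteSpace H]
  (L : (H →L[ℂ] H) → H →L[ℂ] H) (m : Bool), Lm L m → ∀ Φ : (H →L[ℂ] H) → H →L[ℂ] H, AS L Φ →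
  ∀ x y : H, Op x y → ∃ (u v : H) (δ : ℂ) (h : ℂ → ℂ), Op u v ∧ δ ≠ 0 ∧ IC h ∧ PD Φ h δ x y u v

/-- change of the orthonormal basis of the plane -/
def T_SQ : Prop := ∀ (H : Type) [NormedAddCommGroup H] [InnerProductSpace ℂ H] [CompleteSpace H]
  (Φ : (H →L[ℂ] H) → H →L[ℂ] H) (h : ℂ → ℂ) (δ : ℂ) (x y u v : H) (a b c : ℂ), IC h → Op x y →
  Op u v → PD Φ h δ x y u v → ‖a‖ ^ 2 + ‖b‖ ^ 2 = 1 → ‖c‖ = 1 →
  Op (a • x + b • y) (c • (-(conj b) • x + conj a • y)) ∧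
  Op (h a • u + h b • v) (h c • (-(conj (h b)) • u + conj (h a) • v)) ∧
  PD Φ h δ (a • x + b • y) (c • (-(conj b) • x + conj a • y)) (h a • u + h b • v)
    (h c • (-(conj (h b)) • u + conj (h a) • v))

/-- the data of an orthonormal pair are essentially unique -/
def T_SU : Prop := ∀ (H : Type) [NormedAddCommGroup H] [InnerProductSpace ℂ H] [CompleteSpace H]
  (Φ : (H →L[ℂ] H) → H →L[ℂ] H) (h h' : ℂ → ℂ) (δ δ' : ℂ) (x y u v u' v' : H), IC h → IC h' →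
  Op x y → Op u v → Op u' v' → δ ≠ 0 → δ' ≠ 0 → PD Φ h δ x y u v → PD Φ h' δ' x y u' v' →
  δ' = δ ∧ h' = h ∧ ∃ c : ℂ, ‖c‖ = 1 ∧ u' = c • u ∧ v' = c • v

/-- the same homogeneity for all pairs -/
def T_SG : Prop := ∀ (H : Type) [NormedAddCommGroup H] [InnerProductSpace ℂ H] [CompleteSpace H]
  (L : (H →L[ℂ] H) → H →L[ℂ] H) (m : Bool), Lm L m → ∀ Φ : (H →L[ℂ] H) → H →L[ℂ] H, AS L Φ →
  ∃ h : ℂ → ℂ, IC h ∧ ∀ x y : H, Op x y → ∃ (u v : H) (δ : ℂ), Op u v ∧ δ ≠ 0 ∧ PD Φ h δ x y u v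

/-- triples: the transposed type is impossible -/
def T_ST : Prop := ∀ (H : Type) [NormedAddCommGroup H] [InnerProductSpace ℂ H] [CompleteSpace H]
  (L : (H →L[ℂ] H) → H →L[ℂ] H) (m : Bool), Lm L m → ∀ Φ : (H →L[ℂ] H) → H →L[ℂ] H, AS L Φ →
  ∀ h : ℂ → ℂ, IC h →
  (∀ x y : H, Op x y → ∃ (u v : H) (δ : ℂ), Op u v ∧ δ ≠ 0 ∧ PD Φ h δ x y u v) →
  ∀ (x y z u₁ v₁ u₂ v₂ : H) (δ₁ δ₂ : ℂ), Op x y → Op x z → Op y z → Op u₁ v₁ → Op u₂ v₂ →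
    δ₁ ≠ 0 → δ₂ ≠ 0 → PD Φ h δ₁ x z u₁ v₁ → PD Φ h δ₂ y z u₂ v₂ →
    δ₁ = δ₂ ∧ inner ℂ u₁ u₂ = 0 ∧ ∃ c : ℂ, ‖c‖ = 1 ∧ v₂ = c • v₁

/-- the same factor for all pairs -/
def T_SD : Prop := ∀ (H : Type) [NormedAddCommGroup H] [InnerProductSpace ℂ H] [CompleteSpace H]
  (L : (H →L[ℂ] H) → H →L[ℂ] H) (m : Bool), Lm L m → ∀ Φ : (H →L[ℂ] H) → H →L[ℂ] H, AS L Φ →
  Two H → ∃ (h : ℂ → ℂ) (δ : ℂ), IC h ∧ δ ≠ 0 ∧ ∀ x y : H, Op x y →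
    ∃ u v : H, Op u v ∧ PD Φ h δ x y u v

/-- the semilinear map attached to a unit vector -/
def T_SV : Prop := ∀ (H : Type) [NormedAddCommGroup H] [InnerProductSpace ℂ H] [CompleteSpace H]
  (L : (H →L[ℂ] H) → H →L[ℂ] H) (m : Bool), Lm L m → ∀ Φ : (H →L[ℂ] H) → H →L[ℂ] H, AS L Φ →
  ∀ (h : ℂ → ℂ) (δ : ℂ), IC h → δ ≠ 0 → (∀ x y : H, Op x y → ∃ u v : H, Op u v ∧
    PD Φ h δ x y u v) → ∀ e : H, ‖e‖ = 1 → (∃ x : H, Op x e) →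
  ∃ (e' : H) (U : H → H), ‖e'‖ = 1 ∧ U e = e' ∧ (∀ x y, U (x + y) = U x + U y) ∧
    (∀ (c : ℂ) x, U (c • x) = h c • U x) ∧ (∀ x, ‖U x‖ = ‖x‖) ∧
    ∀ x, Op x e → PD Φ h δ x e (U x) e'

/-- polarisation -/
def T_SW : Prop := ∀ (H : Type) [NormedAddCommGroup H] [InnerProductSpace ℂ H] [CompleteSpace H]
  (Φ : (H →L[ℂ] H) → H →L[ℂ] H), (∀ A B, Φ (A + B) = Φ A + Φ B) →
  ∀ (h : ℂ → ℂ) (δ : ℂ) (e e' : H) (U : H → H), IC h → ‖e‖ = 1 → ‖e'‖ = 1 → U e = e' →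
    (∀ x y, U (x + y) = U x + U y) → (∀ (c : ℂ) x, U (c • x) = h c • U x) →
    (∀ x, ‖U x‖ = ‖x‖) → (∀ x, Op x e → PD Φ h δ x e (U x) e') →
    ∀ x y : H, inner ℂ y x = 0 → Φ (ro x y) = δ • ro (U x) (U y)

/-- the form of `Φ` on rank one square zero operators -/
def T_SX : Prop := ∀ (H : Type) [NormedAddCommGroup H] [InnerProductSpace ℂ H] [CompleteSpace H]
  (L : (H →L[ℂ] H) → H →L[ℂ] H) (m : Bool), Lm L m → ∀ Φ : (H →L[ℂ] H) → H →L[ℂ] H, AS L Φ →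
  Two H → ∃ (W : UA H) (δ : ℂ), δ ≠ 0 ∧ ∀ x y : H, inner ℂ y x = 0 →
    Φ (ro x y) = δ • cj W (ro x y)

/-- finite rank operators of trace zero are sums of rank one square zero operators -/
def T_SF : Prop := ∀ (H : Type) [NormedAddCommGroup H] [InnerProductSpace ℂ H] [CompleteSpace H]
  (S : AddSubgroup (H →L[ℂ] H)), (∀ x y : H, inner ℂ y x = 0 → ro x y ∈ S) →
    ∀ a b c d : H, inner ℂ b a = inner ℂ d c → ro a b - ro c d ∈ S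

/-- from rank one square zero operators to all square zero operators -/
def T_SZ : Prop := ∀ (H : Type) [NormedAddCommGroup H] [InnerProductSpace ℂ H] [CompleteSpace H]
  (L Φ : (H →L[ℂ] H) → H →L[ℂ] H), AS L Φ → (∀ A, A * A = 0 → Φ A * Φ A = 0) →
  (∀ x y : H, inner ℂ y x = 0 → Φ (ro x y) = ro x y) → ∀ M, M * M = 0 → Φ M = M

/-- two isometries with complementary ranges -/
def T_SI1 : Prop := ∀ (H : Type) [NormedAddCommGroup H] [InnerProductSpace ℂ H] [CompleteSpace H],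
  ¬ FiniteDimensional ℂ H → ∃ S₁ S₂ : H →L[ℂ] H, star S₁ * S₁ = 1 ∧ star S₂ * S₂ = 1 ∧
    star S₁ * S₂ = 0 ∧ star S₂ * S₁ = 0 ∧ S₁ * star S₁ + S₂ * star S₂ = 1

/-- the swindle -/
def T_SI2 : Prop := ∀ (H : Type) [NormedAddCommGroup H] [InnerProductSpace ℂ H] [CompleteSpace H]
  (S₁ S₂ : H →L[ℂ] H), star S₁ * S₁ = 1 → star S₂ * S₂ = 1 → star S₁ * S₂ = 0 →
  star S₂ * S₁ = 0 → S₁ * star S₁ + S₂ * star S₂ = 1 → ∀ Z : H →L[ℂ] H, ∃ D : H →L[ℂ] H,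
    D = S₂ * Z * star S₂ + S₁ * D * star S₁

/-- in infinite dimension all operators are sums of square zero operators -/
def T_SI3 : Prop := ∀ (H : Type) [NormedAddCommGroup H] [InnerProductSpace ℂ H] [CompleteSpace H],
  ¬ FiniteDimensional ℂ H → ∀ S : AddSubgroup (H →L[ℂ] H), (∀ A, A * A = 0 → A ∈ S) → ∀ T, T ∈ S

/-- finite dimension: scalars are mapped to scalars -/
def T_SJ : Prop := ∀ (H : Type) [NormedAddCommGroup H] [InnerProductSpace ℂ H] [CompleteSpace H]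
  (L : (H →L[ℂ] H) → H →L[ℂ] H) (m : Bool), Lm L m → ∀ Φ : (H →L[ℂ] H) → H →L[ℂ] H, AS L Φ →
  FiniteDimensional ℂ H → ∀ c : ℂ, ∃ d : ℂ, Φ (c • 1) = d • 1

/-- finite dimension: the map is the identity on scalars -/
def T_SL : Prop := ∀ (H : Type) [NormedAddCommGroup H] [InnerProductSpace ℂ H] [CompleteSpace H]
  (L : (H →L[ℂ] H) → H →L[ℂ] H) (m : Bool), Lm L m → ∀ Φ : (H →L[ℂ] H) → H →L[ℂ] H, AS L Φ →
  FiniteDimensional ℂ H → Two H → (∀ x y : H, inner ℂ y x = 0 → Φ (ro x y) = ro x y) →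
  (∀ c : ℂ, ∃ d : ℂ, Φ (c • 1) = d • 1) → ∀ T, Φ T = T

/-- additive bijections commuting with the transform -/
def T_SE : Prop := ∀ (H : Type) [NormedAddCommGroup H] [InnerProductSpace ℂ H] [CompleteSpace H]
  (L : (H →L[ℂ] H) → H →L[ℂ] H) (m : Bool), Lm L m → ∀ Φ : (H →L[ℂ] H) → H →L[ℂ] H, AS L Φ →
  Two H → ∃ (W : UA H) (δ : ℂ), δ ≠ 0 ∧ ∀ T, Φ T = δ • cj W T

/-- operation 5 -/
def T_SO : Prop := ∀ (H : Type) [NormedAddCommGroup H] [InnerProductSpace ℂ H] [CompleteSpace H]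
  (L : (H →L[ℂ] H) → H →L[ℂ] H), IsLam L → Two H → ∀ (w : ℂ) (Φ : (H →L[ℂ] H) → H →L[ℂ] H),
  w ≠ 0 → ((Function.Bijective Φ ∧ Eq5 w L Φ) ↔
    ∃ α : ℂ, α ≠ 0 ∧ (UConj α Φ ∨ (w.im = 0 ∧ AConj α Φ)))

/-! ## D: dimension one -/

/-- dimension one: operators are scalars and the transforms are the identity -/
def T_DA : Prop := ∀ (H : Type) [NormedAddCommGroup H] [InnerProductSpace ℂ H] [CompleteSpace H],
  Module.finrank ℂ H = 1 → (∀ T : H →L[ℂ] H, ∃! c : ℂ, T = c • 1) ∧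
  (∀ L : (H →L[ℂ] H) → H →L[ℂ] H, IsLam L → ∀ T, L T = T) ∧
  (∀ Φ : (H →L[ℂ] H) → H →L[ℂ] H, Function.Bijective Φ → ∃ f : ℂ → ℂ, Function.Bijective f ∧
    ∀ c : ℂ, Φ (c • 1) = f c • 1) ∧
  ∀ (Φ : (H →L[ℂ] H) → H →L[ℂ] H) (f : ℂ → ℂ), Function.Bijective f →
    (∀ c : ℂ, Φ (c • 1) = f c • 1) → Function.Bijective Φ

/-- dimension one: the five operations -/
def T_DB : Prop := ∀ (H : Type) [NormedAddCommGroup H] [InnerProductSpace ℂ H] [CompleteSpace H],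
  Module.finrank ℂ H = 1 → ∀ L : (H →L[ℂ] H) → H →L[ℂ] H, IsLam L →
  ∀ Φ : (H →L[ℂ] H) → H →L[ℂ] H,
  ((Function.Bijective Φ ∧ Eq1 L Φ) ↔ ∃ f : ℂ → ℂ, Function.Bijective f ∧
    (∀ a b, f (a * b) = f a * f b) ∧ ∀ c : ℂ, Φ (c • 1) = f c • 1) ∧
  ((Function.Bijective Φ ∧ Eq2 L Φ) ↔ ∃ f : ℂ → ℂ, Function.Bijective f ∧
    (∀ a b, f (a * b) = f a * f b) ∧ ∀ c : ℂ, Φ (c • 1) = f c • 1) ∧
  ((Function.Bijective Φ ∧ Eq3 L Φ) ↔ ∃ f : ℂ → ℂ, Function.Bijective f ∧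
    (∀ a b, f (a * b) = f a * f b) ∧ (∀ a, f (conj a) = conj (f a)) ∧
    ∀ c : ℂ, Φ (c • 1) = f c • 1) ∧
  (∀ n k : ℕ, 1 ≤ n + k → ((Function.Bijective Φ ∧ Eq4 n k L Φ) ↔ ∃ (f : ℂ → ℂ) (z : ℂ),
    Function.Bijective f ∧ (∀ a b, f (a * b) = f a * f b) ∧ z ^ (n + k) = 1 ∧
    ∀ c : ℂ, Φ (c • 1) = (z * f c) • 1)) ∧
  (∀ w : ℂ, w ≠ 0 → ((Function.Bijective Φ ∧ Eq5 w L Φ) ↔ ∃ f : ℂ → ℂ,
    Function.Bijective f ∧ (∀ a b, f (a + b) = f a + f b) ∧ (∀ a, f (w * a) = w * f a) ∧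
    ∀ c : ℂ, Φ (c • 1) = f c • 1))

end Pool.Agent.H79.MT5
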